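import Pool.Agent.VC.Hall
import Pool.Agent.VC.Cut

/-!
# The core: the setting and the odd classes
-/

namespace Pool.Agent.VC

open Finset Classical

/-- Conflict of positions: equal or with a common neighbour. -/
def Conf {P Q : Type} (adj : P → Q → Prop) (a a' : P) : Prop :=
  a = a' ∨ ∃ b, adj a b ∧ adj a' b

theorem Conf.symm {P Q : Type} {adj : P → Q → Prop} {a a' : P} (h : Conf adj a a') :
    Conf adj a' a := by
  rcases h with h | ⟨b, h1, h2⟩
  · exact Or.inl h.symm
  · exact Or.inr ⟨b, h2, h1⟩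

theorem card_conf {P Q : Type} [Fintype P] [Fintype Q] (adj : P → Q → Prop) (n : ℕ)
    (d1 : ∀ a, (univ.filter (fun b => adj a b)).card ≤ n)
    (d2 : ∀ b, (univ.filter (fun a => adj a b)).card ≤ n) (a : P) :
    (univ.filter (fun a' => Conf adj a a')).card ≤ n * n + 1 := by
  have hsub : univ.filter (fun a' => Conf adj a a') ⊆
      ((univ.filter (fun b => adj a b)).biUnion (fun b => univ.filter (fun a' => adj a' b))) ∪
        {a} := by
    intro a' ha'
    rw [mem_filter] at ha'
    rcases ha'.2 with h | ⟨b, h1, h2⟩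
    · exact mem_union_right _ (mem_singleton.mpr h.symm)
    · exact mem_union_left _ (mem_biUnion.mpr ⟨b, by simp [h1], by simp [h2]⟩)
  calc _ ≤ _ := card_le_card hsub
    _ ≤ _ := card_union_le _ _
    _ ≤ n * n + 1 := by
        have h1 : ((univ.filter (fun b => adj a b)).biUnion
            (fun b => univ.filter (fun a' => adj a' b))).card ≤
            ∑ b ∈ univ.filter (fun b => adj a b), (univ.filter (fun a' => adj a' b)).card :=
          card_biUnion_le
        have h2 : ∑ b ∈ univ.filter (fun b => adj a b),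
            (univ.filter (fun a' => adj a' b)).card ≤
            ∑ _b ∈ univ.filter (fun b => adj a b), n := sum_le_sum (fun b _ => d2 b)
        rw [sum_const, smul_eq_mul] at h2
        have h3 : (univ.filter (fun b => adj a b)).card * n ≤ n * n :=
          Nat.mul_le_mul_right _ (d1 a)
        simp only [card_singleton]
        omega

/-- The setting. -/
structure Setting (E O X Y W J : Type) [Fintype E] [Fintype O] [Fintype X] [Fintype Y]
    [Fintype W] [Fintype J] where
  adj : E → O → Prop
  n : ℕ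
  D : ℕ
  T : ℕ
  N : ℕ
  s : ℕ
  dl : ℕ
  ep : ℕ
  rho : ℕ
  hE : Fintype.card E = N
  hO : Fintype.card O = N
  hX : Fintype.card X = N
  hY : Fintype.card Y = N
  dE : ∀ a, (univ.filter (fun b => adj a b)).card ≤ n
  dO : ∀ b, (univ.filter (fun a => adj a b)).card ≤ n
  pE : E → W
  pO : O → W
  nb : W → Finset W
  nbs : ∀ w w', w' ∈ nb w → w ∈ nb w'
  nbc : ∀ w, (nb w).card ≤ D
  hadj : ∀ a b, adj a b → pO b ∈ nb (pE a)
  m : W → ℕ
  mE : ∀ w, (univ.filter (fun a => pE a = w)).card = m w
  mO : ∀ w, (univ.filter (fun b => pO b = w)).card = m w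
  ms : ∀ w, m w ≤ s
  TE : Finset E
  FO : Finset O
  mT : ∀ w, (TE.filter (fun a => pE a = w)).card * T = m w
  mF : FO.card * T = N
  hTF : ∀ a ∈ TE, ∀ b ∈ FO, ¬ adj a b
  h : X → Y → Prop
  hdX : ∀ x, (univ.filter (fun y => h x y)).card ≤ dl
  hdY : ∀ y, (univ.filter (fun x => h x y)).card ≤ dl
  cl : Y → Option J
  hrho : (univ.filter (fun y => cl y = none)).card ≤ rho
  hs : ∀ j, s ≤ (univ.filter (fun y => cl y = some j)).card
  hcl : ∀ j y y', cl y = some j → cl y' = some j →
    (univ.filter (fun x => ¬ (h x y ↔ h x y'))).card ≤ ep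
  hn : 16 ≤ n
  hN : 0 < N
  c0 : 2 * rho ≤ N
  c1 : T * (2 * ep * n ^ 2 * (n * n + 1)) + 80 * D * dl ≤ N
  c2 : T * (rho * (n * n + 1)) ≤ N
  c3 : 12 * n * D ≤ T
  c4 : 2 * ((2 * D + 1) * dl + n * ep) + 2 * ep * n ^ 2 ≤ N
  c5 : 16 * n * rho + 320 * D * dl + 16 * ep * n ^ 2 ≤ 7 * N

namespace Setting

variable {E O X Y W J : Type} [Fintype E] [Fintype O] [Fintype X] [Fintype Y]
    [Fintype W] [Fintype J] (S : Setting E O X Y W J)

/-- Size of a class. -/
noncomputable def q (j : J) : ℕ := (univ.filter (fun y => S.cl y = some j)).card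

/-- Number of members of the class `j` in conflict with `x`. -/
noncomputable def H (x : X) (j : J) : ℕ :=
  (univ.filter (fun y => S.cl y = some j ∧ S.h x y)).card

theorem Tpos : 0 < S.T := by
  rcases Nat.eq_zero_or_pos S.T with h | h
  · exfalso
    have h1 := S.mF
    have h2 := S.hN
    rw [h, Nat.mul_zero] at h1
    omega
  · exact h

theorem sum_m : ∑ w, S.m w = S.N := by
  rw [← S.hE, ← Finset.card_univ,
    Finset.card_eq_sum_card_fiberwise (f := S.pE) (t := univ) (fun _ _ => mem_univ _)]
  exact sum_congr rfl (fun w _ => (S.mE w).symm)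

theorem sum_q : ∑ j, S.q j + (univ.filter (fun y => S.cl y = none)).card = S.N := by
  have h1 := Finset.card_eq_sum_card_fiberwise (s := (univ : Finset Y)) (f := S.cl)
    (t := univ) (fun _ _ => mem_univ _)
  rw [Fintype.sum_option, Finset.card_univ, S.hY] at h1
  rw [h1, add_comm]
  rfl

theorem sum_H (x : X) : ∑ j, S.H x j ≤ S.dl := by
  refine le_trans ?_ (S.hdX x)
  have h1 : ∑ j, S.H x j =
      (univ.biUnion (fun j => univ.filter (fun y => S.cl y = some j ∧ S.h x y))).card := by
    rw [card_biUnion]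
    · rfl
    · intro j _ j' _ hjj'
      rw [Function.onFun, disjoint_left]
      intro y hy hy'
      simp only [mem_filter, mem_univ, true_and] at hy hy'
      rw [hy.1] at hy'
      exact hjj' (Option.some.inj hy'.1)
  rw [h1]
  apply card_le_card
  intro y hy
  simp only [mem_biUnion, mem_filter, mem_univ, true_and] at hy ⊢
  obtain ⟨j, _, hj⟩ := hy
  exact hj

theorem H_le (x : X) (j : J) : S.H x j ≤ S.q j := by
  apply card_le_card
  intro y hy
  simp only [mem_filter, mem_univ, true_and] at hy ⊢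
  exact hy.1

/-- Positions of the exceptional members of `Y`. -/
theorem exists_P0 : ∃ bpos : {y : Y // S.cl y = none} → O,
    (∀ y, bpos y ∈ S.FO) ∧ ∀ y y', y ≠ y' → ¬ Conf (fun b a => S.adj a b) (bpos y) (bpos y') := by
  have hcard : Fintype.card {y : Y // S.cl y = none} =
      (univ.filter (fun y => S.cl y = none)).card := by
    rw [Fintype.card_subtype]
  refine exists_scatter _ (fun p q h => h.symm) (S.n * S.n + 1) (by omega)
    (fun b => card_conf _ S.n S.dO S.dE b) (fun _ => S.FO) ?_
  intro y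
  rw [hcard]
  have h1 : S.T * ((univ.filter (fun y => S.cl y = none)).card * (S.n * S.n + 1)) ≤
      S.T * S.FO.card := by
    calc _ ≤ S.T * (S.rho * (S.n * S.n + 1)) :=
          Nat.mul_le_mul_left _ (Nat.mul_le_mul_right _ S.hrho)
      _ ≤ S.N := S.c2
      _ = S.T * S.FO.card := by rw [← S.mF, mul_comm]
  exact Nat.le_of_mul_le_mul_left h1 S.Tpos

end Setting

end Pool.Agent.VC
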