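import Pool.Agent.VCube.CoreA

/-!
# The core: cutting the odd positions into classes
-/

namespace Pool.Agent.VC

open Finset Classical

theorem sum_biUnion_le' {A B : Type} (s : Finset A) (t : A → Finset B) (f : B → ℕ) :
    ∑ w ∈ s.biUnion t, f w ≤ ∑ i ∈ s, ∑ w ∈ t i, f w := by
  induction s using Finset.induction_on with
  | empty => simp
  | insert a s ha ih =>
    rw [biUnion_insert, sum_insert ha]
    have h1 := sum_union_inter (s₁ := t a) (s₂ := s.biUnion t) (f := f)
    omega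

namespace Setting

variable {E O X Y W J : Type} [Fintype E] [Fintype O] [Fintype X] [Fintype Y]
    [Fintype W] [Fintype J] (S : Setting E O X Y W J)

/-- Profiles next to the class `j`. -/
noncomputable def near {P : Type} (u : P → O) (F : P → J) (j : J) : Finset W :=
  univ.filter (fun w => ∃ b, F b = j ∧ S.pO (u b) ∈ S.nb w)

theorem mem_near {P : Type} (u : P → O) (F : P → J) (j : J) (w : W) :
    w ∈ S.near u F j ↔ ∃ b, F b = j ∧ S.pO (u b) ∈ S.nb w := by
  simp only [near, mem_filter, mem_univ, true_and]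

theorem sum_cost : ∑ w, ∑ w' ∈ S.nb w, S.m w' ≤ S.D * S.N := by
  have h1 : ∑ w, ∑ w' ∈ S.nb w, S.m w' = ∑ w', ∑ w ∈ S.nb w', S.m w' := by
    have h2 : ∀ w, ∑ w' ∈ S.nb w, S.m w' = ∑ w', if w' ∈ S.nb w then S.m w' else 0 := by
      intro w
      rw [sum_ite_mem, univ_inter]
    have h3 : ∀ w', ∑ w ∈ S.nb w', S.m w' = ∑ w, if w' ∈ S.nb w then S.m w' else 0 := by
      intro w'
      rw [← sum_filter]
      apply sum_congr _ (fun _ _ => rfl)
      ext w
      simp only [mem_filter, mem_univ, true_and]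
      exact ⟨fun h => S.nbs _ _ h, fun h => S.nbs _ _ h⟩
    rw [sum_congr rfl (fun w _ => h2 w), sum_comm, sum_congr rfl (fun w _ => h3 w)]
  rw [h1]
  calc ∑ w', ∑ w ∈ S.nb w', S.m w' = ∑ w', (S.nb w').card * S.m w' := by
        apply sum_congr rfl
        intro w' _
        rw [sum_const, smul_eq_mul]
    _ ≤ ∑ w', S.D * S.m w' := sum_le_sum (fun w' _ => Nat.mul_le_mul_right _ (S.nbc w'))
    _ = S.D * S.N := by rw [← mul_sum, S.sum_m]

theorem cost_le (w : W) : ∑ w' ∈ S.nb w, S.m w' ≤ S.D * S.s := by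
  calc ∑ w' ∈ S.nb w, S.m w' ≤ ∑ _w' ∈ S.nb w, S.s := sum_le_sum (fun w' _ => S.ms w')
    _ = (S.nb w).card * S.s := by rw [sum_const, smul_eq_mul]
    _ ≤ S.D * S.s := Nat.mul_le_mul_right _ (S.nbc w)

/-- The classes of odd positions. -/
theorem exists_F (bpos : {y : Y // S.cl y = none} → O) (hbi : Function.Injective bpos) :
    ∃ F : {b : O // ∀ y, bpos y ≠ b} → J,
      (∀ j, (univ.filter (fun b => F b = j)).card = S.q j) ∧
      (∀ w, (univ.filter (fun j => ∃ b, S.pO b.1 = w ∧ F b = j)).card ≤ 2) ∧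
      ∀ j, ∑ w ∈ S.near (fun b : {b : O // ∀ y, bpos y ≠ b} => b.1) F j, S.m w ≤
        10 * S.D * S.q j := by
  have hI : Fintype.card {y : Y // S.cl y = none} =
      (univ.filter (fun y => S.cl y = none)).card := by rw [Fintype.card_subtype]
  -- the number of remaining odd positions
  have hP : Fintype.card {b : O // ∀ y, bpos y ≠ b} +
      (univ.filter (fun y => S.cl y = none)).card = S.N := by
    have h1 : Fintype.card {b : O // ∀ y, bpos y ≠ b} =
        (univ.filter (fun b => ∀ y, bpos y ≠ b)).card := by rw [Fintype.card_subtype]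
    have h2 : (univ.filter (fun b => ¬ ∀ y, bpos y ≠ b)) = univ.image bpos := by
      ext b
      simp only [mem_filter, mem_univ, true_and, mem_image, not_forall, not_not]
    have h3 := Finset.card_filter_add_card_filter_not (s := (univ : Finset O))
      (fun b => ∀ y, bpos y ≠ b)
    rw [h2, card_image_of_injective _ hbi, Finset.card_univ, Finset.card_univ, hI, S.hO] at h3
    rw [h1, h3]
  have hsum : ∑ j, S.q j = Fintype.card {b : O // ∀ y, bpos y ≠ b} := by
    have := S.sum_q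
    omega
  have hPN : S.N ≤ 2 * Fintype.card {b : O // ∀ y, bpos y ≠ b} := by
    have h1 := S.hrho
    have h2 := S.c0
    omega
  obtain ⟨F, hF1, hF2, hF3⟩ := exists_cut (P := {b : O // ∀ y, bpos y ≠ b})
    (fun b => S.pO b.1) S.q S.s hsum
    (by
      intro w
      refine le_trans ?_ (le_of_eq_of_le (S.mO w) (S.ms w))
      have : ((univ.filter (fun b : {b : O // ∀ y, bpos y ≠ b} => S.pO b.1 = w)).map
          (Function.Embedding.subtype _)).card ≤ (univ.filter (fun b => S.pO b = w)).card := by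
        apply card_le_card
        intro b hb
        simp only [mem_map, mem_filter, mem_univ, true_and] at hb ⊢
        obtain ⟨b', hb', rfl⟩ := hb
        exact hb'
      rwa [card_map] at this)
    S.hs (fun w => ((∑ w' ∈ S.nb w, S.m w' : ℕ) : ℝ)) (fun w => Nat.cast_nonneg _)
    (2 * S.D * S.s) (2 * S.D) (by positivity)
    (by
      intro w
      have h1 := S.cost_le w
      have h2 : ((∑ w' ∈ S.nb w, S.m w' : ℕ) : ℝ) ≤ ((S.D * S.s : ℕ) : ℝ) := by
        exact_mod_cast h1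
      have h3 : (0 : ℝ) ≤ (S.D : ℝ) * S.s := by positivity
      push_cast at h2 ⊢
      linarith)
    (by
      have h1 : ((∑ w, ∑ w' ∈ S.nb w, S.m w' : ℕ) : ℝ) ≤ ((S.D * S.N : ℕ) : ℝ) := by
        exact_mod_cast S.sum_cost
      have h2 : ((S.D * S.N : ℕ) : ℝ) ≤
          ((S.D * (2 * Fintype.card {b : O // ∀ y, bpos y ≠ b}) : ℕ) : ℝ) := by
        exact_mod_cast Nat.mul_le_mul_left _ hPN
      push_cast at h1 h2 ⊢
      linarith)
    (le_refl _)
  refine ⟨F, hF1, hF2, ?_⟩
  intro j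
  have h1 := hF3 j
  have hsq : (S.s : ℝ) ≤ S.q j := by exact_mod_cast S.hs j
  have hD0 : (0 : ℝ) ≤ S.D := Nat.cast_nonneg _
  have h2 : ∑ w ∈ S.near (fun b : {b : O // ∀ y, bpos y ≠ b} => b.1) F j, S.m w ≤
      ∑ w' ∈ univ.filter (fun w' => ∃ b : {b : O // ∀ y, bpos y ≠ b}, S.pO b.1 = w' ∧ F b = j),
        ∑ w ∈ S.nb w', S.m w := by
    have hsub : S.near (fun b : {b : O // ∀ y, bpos y ≠ b} => b.1) F j ⊆
        (univ.filter (fun w' => ∃ b : {b : O // ∀ y, bpos y ≠ b},
          S.pO b.1 = w' ∧ F b = j)).biUnion (fun w' => S.nb w') := by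
      intro w hw
      simp only [near, mem_filter, mem_univ, true_and] at hw
      obtain ⟨b, hb1, hb2⟩ := hw
      rw [mem_biUnion]
      exact ⟨S.pO b.1, by simp only [mem_filter, mem_univ, true_and]; exact ⟨b, rfl, hb1⟩,
        S.nbs _ _ hb2⟩
    calc _ ≤ ∑ w ∈ (univ.filter (fun w' => ∃ b : {b : O // ∀ y, bpos y ≠ b},
          S.pO b.1 = w' ∧ F b = j)).biUnion (fun w' => S.nb w'), S.m w :=
          sum_le_sum_of_subset hsub
      _ ≤ _ := sum_biUnion_le' _ _ _
  have h3 : ((∑ w ∈ S.near (fun b : {b : O // ∀ y, bpos y ≠ b} => b.1) F j, S.m w : ℕ) : ℝ) ≤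
      10 * S.D * S.q j := by
    calc ((∑ w ∈ S.near (fun b : {b : O // ∀ y, bpos y ≠ b} => b.1) F j, S.m w : ℕ) : ℝ) ≤
        ((∑ w' ∈ univ.filter (fun w' => ∃ b : {b : O // ∀ y, bpos y ≠ b},
          S.pO b.1 = w' ∧ F b = j), ∑ w ∈ S.nb w', S.m w : ℕ) : ℝ) := by exact_mod_cast h2
      _ = ∑ w' ∈ univ.filter (fun w' => ∃ b : {b : O // ∀ y, bpos y ≠ b},
          S.pO b.1 = w' ∧ F b = j), ((∑ w ∈ S.nb w', S.m w : ℕ) : ℝ) := by push_cast; rfl
      _ ≤ 2 * S.D * ((S.q j : ℝ) + 2 * S.s) + 2 * (2 * S.D * S.s) := h1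
      _ ≤ 10 * S.D * S.q j := by nlinarith [mul_le_mul_of_nonneg_left hsq hD0]
  exact_mod_cast h3

end Setting

end Pool.Agent.VC
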