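import Pool.Agent.VCube.CoreB

/-!
# The core: the exceptional vertices of the even side
-/

namespace Pool.Agent.VC

open Finset Classical

namespace Setting

variable {E O X Y W J : Type} [Fintype E] [Fintype O] [Fintype X] [Fintype Y]
    [Fintype W] [Fintype J] (S : Setting E O X Y W J)

/-- Number of the conflicts of `x` in classes where `x` is in conflict with a minority. -/
noncomputable def nu (x : X) : ℕ := ∑ j ∈ univ.filter (fun j => 2 * S.H x j < S.q j), S.H x j

theorem sum_H_compl (j : J) : ∑ x, S.H x j * (S.q j - S.H x j) ≤ S.q j * S.q j * S.ep := by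
  have h1 : ∀ x, S.H x j * (S.q j - S.H x j) =
      ((univ.filter (fun y => S.cl y = some j) ×ˢ univ.filter (fun y => S.cl y = some j)).filter
        (fun p => S.h x p.1 ∧ ¬ S.h x p.2)).card := by
    intro x
    have h2 : ((univ.filter (fun y => S.cl y = some j) ×ˢ
        univ.filter (fun y => S.cl y = some j)).filter (fun p => S.h x p.1 ∧ ¬ S.h x p.2)) =
        (univ.filter (fun y => S.cl y = some j ∧ S.h x y)) ×ˢ
        (univ.filter (fun y => S.cl y = some j ∧ ¬ S.h x y)) := by
      ext p
      simp only [mem_filter, mem_product, mem_univ, true_and]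
      tauto
    have h3 : (univ.filter (fun y => S.cl y = some j ∧ S.h x y)).card +
        (univ.filter (fun y => S.cl y = some j ∧ ¬ S.h x y)).card = S.q j := by
      rw [q, ← filter_filter, ← filter_filter]
      exact card_filter_add_card_filter_not (s := univ.filter (fun y => S.cl y = some j))
        (fun y => S.h x y)
    rw [h2, card_product]
    have h4 : S.q j - S.H x j = (univ.filter (fun y => S.cl y = some j ∧ ¬ S.h x y)).card := by
      have : S.H x j = (univ.filter (fun y => S.cl y = some j ∧ S.h x y)).card := rfl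
      omega
    rw [h4]
    rfl
  have h5 : ∀ x, ((univ.filter (fun y => S.cl y = some j) ×ˢ
      univ.filter (fun y => S.cl y = some j)).filter (fun p => S.h x p.1 ∧ ¬ S.h x p.2)).card =
      ∑ p ∈ (univ.filter (fun y => S.cl y = some j) ×ˢ univ.filter (fun y => S.cl y = some j)),
        if (S.h x p.1 ∧ ¬ S.h x p.2) then 1 else 0 := by
    intro x
    rw [card_filter]
  calc ∑ x, S.H x j * (S.q j - S.H x j) =
      ∑ x, ∑ p ∈ (univ.filter (fun y => S.cl y = some j) ×ˢ
        univ.filter (fun y => S.cl y = some j)), if (S.h x p.1 ∧ ¬ S.h x p.2) then 1 else 0 :=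
        sum_congr rfl (fun x _ => (h1 x).trans (h5 x))
    _ = ∑ p ∈ (univ.filter (fun y => S.cl y = some j) ×ˢ
        univ.filter (fun y => S.cl y = some j)), ∑ x,
          if (S.h x p.1 ∧ ¬ S.h x p.2) then 1 else 0 := sum_comm
    _ ≤ ∑ _p ∈ (univ.filter (fun y => S.cl y = some j) ×ˢ
        univ.filter (fun y => S.cl y = some j)), S.ep := by
        apply sum_le_sum
        intro p hp
        rw [mem_product, mem_filter, mem_filter] at hp
        rw [← card_filter]
        refine le_trans (card_le_card ?_) (S.hcl j p.1 p.2 hp.1.2 hp.2.2)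
        intro x hx
        simp only [mem_filter, mem_univ, true_and] at hx ⊢
        tauto
    _ = S.q j * S.q j * S.ep := by
        rw [sum_const, smul_eq_mul, card_product]
        rfl

theorem sum_minor (j : J) : ∑ x, (if 2 * S.H x j < S.q j then S.H x j else 0) ≤
    2 * S.ep * S.q j := by
  rcases Nat.eq_zero_or_pos (S.q j) with h0 | h0
  · have : ∀ x, (if 2 * S.H x j < S.q j then S.H x j else 0) = 0 := by
      intro x
      rw [if_neg (by omega)]
    simp [this]
  · have h1 : S.q j * ∑ x, (if 2 * S.H x j < S.q j then S.H x j else 0) ≤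
        S.q j * (2 * S.ep * S.q j) := by
      calc S.q j * ∑ x, (if 2 * S.H x j < S.q j then S.H x j else 0) =
          ∑ x, S.q j * (if 2 * S.H x j < S.q j then S.H x j else 0) := mul_sum _ _ _
        _ ≤ ∑ x, 2 * (S.H x j * (S.q j - S.H x j)) := by
            apply sum_le_sum
            intro x _
            by_cases hx : 2 * S.H x j < S.q j
            · rw [if_pos hx]
              have h2 : S.q j ≤ 2 * (S.q j - S.H x j) := by omega
              calc S.q j * S.H x j ≤ 2 * (S.q j - S.H x j) * S.H x j :=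
                    Nat.mul_le_mul_right _ h2
                _ = 2 * (S.H x j * (S.q j - S.H x j)) := by ring
            · rw [if_neg hx]
              omega
        _ = 2 * ∑ x, S.H x j * (S.q j - S.H x j) := (mul_sum _ _ _).symm
        _ ≤ 2 * (S.q j * S.q j * S.ep) := Nat.mul_le_mul_left _ (S.sum_H_compl j)
        _ = S.q j * (2 * S.ep * S.q j) := by ring
    exact Nat.le_of_mul_le_mul_left h1 h0

theorem sum_nu : ∑ x, S.nu x ≤ 2 * S.ep * S.N := by
  have h1 : ∀ x, S.nu x = ∑ j, (if 2 * S.H x j < S.q j then S.H x j else 0) := by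
    intro x
    rw [nu, sum_filter]
  calc ∑ x, S.nu x = ∑ x, ∑ j, (if 2 * S.H x j < S.q j then S.H x j else 0) :=
        sum_congr rfl (fun x _ => h1 x)
    _ = ∑ j, ∑ x, (if 2 * S.H x j < S.q j then S.H x j else 0) := sum_comm
    _ ≤ ∑ j, 2 * S.ep * S.q j := sum_le_sum (fun j _ => S.sum_minor j)
    _ = 2 * S.ep * ∑ j, S.q j := (mul_sum _ _ _).symm
    _ ≤ 2 * S.ep * S.N := by
        apply Nat.mul_le_mul_left
        have := S.sum_q
        omega

/-- The exceptional vertices. -/
noncomputable def X0 : Finset X := univ.filter (fun x => S.N < S.n ^ 2 * S.nu x)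

theorem mem_X0 (x : X) : x ∈ S.X0 ↔ S.N < S.n ^ 2 * S.nu x := by
  rw [X0, mem_filter]
  exact ⟨fun h => h.2, fun h => ⟨mem_univ _, h⟩⟩

theorem card_X0 : S.X0.card ≤ 2 * S.ep * S.n ^ 2 := by
  have h1 : S.X0.card * S.N ≤ 2 * S.ep * S.n ^ 2 * S.N := by
    calc S.X0.card * S.N = ∑ _x ∈ S.X0, S.N := by rw [sum_const, smul_eq_mul]
      _ ≤ ∑ x ∈ S.X0, S.n ^ 2 * S.nu x := by
          apply sum_le_sum
          intro x hx
          rw [X0, mem_filter] at hx
          exact hx.2.le
      _ ≤ ∑ x, S.n ^ 2 * S.nu x := sum_le_sum_of_subset (subset_univ _)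
      _ = S.n ^ 2 * ∑ x, S.nu x := (mul_sum _ _ _).symm
      _ ≤ S.n ^ 2 * (2 * S.ep * S.N) := Nat.mul_le_mul_left _ S.sum_nu
      _ = 2 * S.ep * S.n ^ 2 * S.N := by ring
  exact Nat.le_of_mul_le_mul_right h1 S.hN

/-- Number of the positions of `TE` over a set of profiles. -/
theorem card_TE_over (Z : Finset W) :
    (S.TE.filter (fun a => S.pE a ∈ Z)).card * S.T = ∑ w ∈ Z, S.m w := by
  rw [card_eq_sum_card_fiberwise (f := S.pE) (t := Z)
    (fun a ha => by
      rw [mem_coe, mem_filter] at ha
      exact ha.2), sum_mul]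
  apply sum_congr rfl
  intro w hw
  rw [← S.mT w, filter_filter]
  congr 2
  ext a
  simp only [mem_filter]
  constructor
  · rintro ⟨h1, h2, h3⟩
    exact ⟨h1, h3⟩
  · rintro ⟨h1, h3⟩
    exact ⟨h1, by rw [h3]; exact hw, h3⟩

theorem card_TE : S.TE.card * S.T = S.N := by
  have h1 := S.card_TE_over univ
  rw [S.sum_m] at h1
  rw [← h1]
  congr 2
  ext a
  simp

/-- Number of the even positions over a set of profiles. -/
theorem card_E_over (Z : Finset W) :
    (univ.filter (fun a => S.pE a ∈ Z)).card = ∑ w ∈ Z, S.m w := by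
  rw [card_eq_sum_card_fiberwise (f := S.pE) (t := Z)
    (fun a ha => by
      rw [mem_coe, mem_filter] at ha
      exact ha.2)]
  apply sum_congr rfl
  intro w hw
  rw [← S.mE w, filter_filter]
  congr 1
  ext a
  simp only [mem_filter, mem_univ, true_and]
  constructor
  · rintro ⟨h2, h3⟩
    exact h3
  · intro h3
    exact ⟨by rw [h3]; exact hw, h3⟩

/-- The positions of the exceptional vertices. -/
theorem exists_apos {P : Type} (u : P → O) (F : P → J)
    (hF : ∀ j, ∑ w ∈ S.near u F j, S.m w ≤ 10 * S.D * S.q j) :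
    ∃ apos : {x : X // x ∈ S.X0} → E,
      (∀ x, apos x ∈ S.TE) ∧
      (∀ x x', x ≠ x' → ¬ Conf S.adj (apos x) (apos x')) ∧
      ∀ (x : {x : X // x ∈ S.X0}) (j : J), S.pE (apos x) ∈ S.near u F j →
        8 * S.H x.1 j ≤ S.q j := by
  have hcard : Fintype.card {x : X // x ∈ S.X0} = S.X0.card := by
    rw [Fintype.card_coe]
  obtain ⟨apos, h1, h2⟩ := exists_scatter (I := {x : X // x ∈ S.X0}) (Conf S.adj)
    (fun p q h => h.symm) (S.n * S.n + 1) (by omega) (fun b => card_conf _ S.n S.dE S.dO b)
    (fun x => S.TE.filter (fun a => ∀ j, S.pE a ∈ S.near u F j → 8 * S.H x.1 j ≤ S.q j))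
    (by
      intro x
      rw [hcard]
      have hbad : (S.TE.filter (fun a => ¬ ∀ j, S.pE a ∈ S.near u F j →
          8 * S.H x.1 j ≤ S.q j)).card * S.T ≤ 80 * S.D * S.dl := by
        have hsub : S.TE.filter (fun a => ¬ ∀ j, S.pE a ∈ S.near u F j →
            8 * S.H x.1 j ≤ S.q j) ⊆ (univ.filter (fun j => S.q j < 8 * S.H x.1 j)).biUnion
              (fun j => S.TE.filter (fun a => S.pE a ∈ S.near u F j)) := by
          intro a ha
          rw [mem_filter] at ha
          obtain ⟨haT, ha2⟩ := ha
          push Not at ha2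
          obtain ⟨j, hj1, hj2⟩ := ha2
          rw [mem_biUnion]
          exact ⟨j, by simp [hj2], by rw [mem_filter]; exact ⟨haT, hj1⟩⟩
        calc (S.TE.filter (fun a => ¬ ∀ j, S.pE a ∈ S.near u F j →
            8 * S.H x.1 j ≤ S.q j)).card * S.T ≤
            (∑ j ∈ univ.filter (fun j => S.q j < 8 * S.H x.1 j),
              (S.TE.filter (fun a => S.pE a ∈ S.near u F j)).card) * S.T :=
              Nat.mul_le_mul_right _ (le_trans (card_le_card hsub) card_biUnion_le)
          _ = ∑ j ∈ univ.filter (fun j => S.q j < 8 * S.H x.1 j),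
              ∑ w ∈ S.near u F j, S.m w := by
              rw [sum_mul]
              exact sum_congr rfl (fun j _ => S.card_TE_over _)
          _ ≤ ∑ j ∈ univ.filter (fun j => S.q j < 8 * S.H x.1 j), 80 * S.D * S.H x.1 j := by
              apply sum_le_sum
              intro j hj
              rw [mem_filter] at hj
              calc ∑ w ∈ S.near u F j, S.m w ≤ 10 * S.D * S.q j := hF j
                _ ≤ 10 * S.D * (8 * S.H x.1 j) := Nat.mul_le_mul_left _ hj.2.le
                _ = 80 * S.D * S.H x.1 j := by ring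
          _ ≤ ∑ j, 80 * S.D * S.H x.1 j := sum_le_sum_of_subset (subset_univ _)
          _ = 80 * S.D * ∑ j, S.H x.1 j := (mul_sum _ _ _).symm
          _ ≤ 80 * S.D * S.dl := Nat.mul_le_mul_left _ (S.sum_H x.1)
      have hsplit := card_filter_add_card_filter_not (s := S.TE)
        (fun a => ∀ j, S.pE a ∈ S.near u F j → 8 * S.H x.1 j ≤ S.q j)
      have hT := S.card_TE
      rw [← hsplit, add_mul] at hT
      have hc1 := S.c1
      have h3 : S.T * (S.X0.card * (S.n * S.n + 1)) ≤
          S.T * (2 * S.ep * S.n ^ 2 * (S.n * S.n + 1)) :=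
        Nat.mul_le_mul_left _ (Nat.mul_le_mul_right _ S.card_X0)
      have h4 : (S.X0.card * (S.n * S.n + 1)) * S.T ≤
          (S.TE.filter (fun a => ∀ j, S.pE a ∈ S.near u F j →
            8 * S.H x.1 j ≤ S.q j)).card * S.T := by
        rw [mul_comm (S.X0.card * (S.n * S.n + 1)) S.T]
        omega
      exact Nat.le_of_mul_le_mul_right h4 S.Tpos)
  refine ⟨apos, fun x => (mem_filter.1 (h1 x)).1, h2, fun x j hj => ?_⟩
  exact (mem_filter.1 (h1 x)).2 j hj

end Setting

end Pool.Agent.VC
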