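import Pool.Agent.VCube.CoreC

/-!
# The core: placing the odd side
-/

namespace Pool.Agent.VC

open Finset Classical

/-- Gluing a placement of the exceptional members with bijections on the classes. -/
theorem glue {O Y J : Type} [Fintype O] [Fintype Y] (cl : Y → Option J)
    (hc : Fintype.card Y = Fintype.card O) (bpos : {y : Y // cl y = none} → O)
    (hb : Function.Injective bpos) (F : {b : O // ∀ y, bpos y ≠ b} → J)
    (φ : {b : O // ∀ y, bpos y ≠ b} → Y) (hφ : ∀ b, cl (φ b) = some (F b))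
    (hinj : Function.Injective φ) :
    ∃ g : Y ≃ O, (∀ y : {y : Y // cl y = none}, g y.1 = bpos y) ∧ ∀ b, g (φ b) = b.1 := by
  let G : O → Y := fun b =>
    if h : ∃ y, bpos y = b then (h.choose).1 else φ ⟨b, not_exists.1 h⟩
  have hG1 : ∀ y, G (bpos y) = y.1 := by
    intro y
    have h : ∃ y', bpos y' = bpos y := ⟨y, rfl⟩
    have h1 : G (bpos y) = (h.choose).1 := dif_pos h
    rw [h1]
    exact congrArg Subtype.val (hb h.choose_spec)
  have hG2 : ∀ b : {b : O // ∀ y, bpos y ≠ b}, G b.1 = φ b := by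
    intro b
    have h : ¬ ∃ y', bpos y' = b.1 := not_exists.2 b.2
    exact dif_neg h
  have hGi : Function.Injective G := by
    intro b b' hbb
    by_cases h : ∃ y, bpos y = b
    · obtain ⟨y, rfl⟩ := h
      by_cases h' : ∃ y, bpos y = b'
      · obtain ⟨y', rfl⟩ := h'
        rw [hG1, hG1] at hbb
        rw [Subtype.ext hbb]
      · exfalso
        have h1 := hG2 ⟨b', not_exists.1 h'⟩
        have h2 := hφ ⟨b', not_exists.1 h'⟩
        rw [← h1, ← hbb, hG1, y.2] at h2
        exact Option.some_ne_none _ h2.symm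
    · by_cases h' : ∃ y, bpos y = b'
      · obtain ⟨y', rfl⟩ := h'
        exfalso
        have h1 := hG2 ⟨b, not_exists.1 h⟩
        have h2 := hφ ⟨b, not_exists.1 h⟩
        rw [← h1, hbb, hG1, y'.2] at h2
        exact Option.some_ne_none _ h2.symm
      · have h1 := hG2 ⟨b, not_exists.1 h⟩
        have h2 := hG2 ⟨b', not_exists.1 h'⟩
        have h3 : φ ⟨b, not_exists.1 h⟩ = φ ⟨b', not_exists.1 h'⟩ := by
          rw [← h1, ← h2]
          exact hbb
        exact congrArg Subtype.val (hinj h3)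
  have hGb : Function.Bijective G :=
    (Fintype.bijective_iff_injective_and_card G).2 ⟨hGi, hc.symm⟩
  refine ⟨(Equiv.ofBijective G hGb).symm, fun y => ?_, fun b => ?_⟩
  · rw [Equiv.symm_apply_eq, Equiv.ofBijective_apply, hG1]
  · rw [Equiv.symm_apply_eq, Equiv.ofBijective_apply, hG2]

namespace Setting

variable {E O X Y W J : Type} [Fintype E] [Fintype O] [Fintype X] [Fintype Y]
    [Fintype W] [Fintype J] (S : Setting E O X Y W J)

/-- Bijection on one class. -/
theorem exists_class_equiv {P : Type} [Fintype P] (u : P → O) (hu : Function.Injective u)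
    (F : P → J)
    (hF1 : ∀ j, (univ.filter (fun b => F b = j)).card = S.q j)
    (hF3 : ∀ j, ∑ w ∈ S.near u F j, S.m w ≤ 10 * S.D * S.q j)
    (apos : {x : X // x ∈ S.X0} → E) (h1 : ∀ x, apos x ∈ S.TE)
    (h2 : ∀ x x', x ≠ x' → ¬ Conf S.adj (apos x) (apos x'))
    (h3 : ∀ (x : {x : X // x ∈ S.X0}) (j : J), S.pE (apos x) ∈ S.near u F j →
        8 * S.H x.1 j ≤ S.q j) (j : J) :
    ∃ e : {b : P // F b = j} ≃ {y : Y // S.cl y = some j},
      ∀ b x, S.adj (apos x) (u b.1) → ¬ S.h x.1 (e b).1 := by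
  have hainj : Function.Injective apos := by
    intro x x' hxx
    by_contra hne
    exact h2 x x' hne (Or.inl hxx)
  -- positions of exceptional vertices near the class
  have hZ : ((univ.filter (fun x : {x : X // x ∈ S.X0} =>
      S.pE (apos x) ∈ S.near u F j)).card) * S.T ≤ 10 * S.D * S.q j := by
    refine le_trans ?_ (hF3 j)
    rw [← S.card_TE_over]
    apply Nat.mul_le_mul_right
    rw [← card_image_of_injective _ hainj]
    apply card_le_card
    intro a ha
    rw [mem_image] at ha
    obtain ⟨x, hx, rfl⟩ := ha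
    rw [mem_filter] at hx ⊢
    exact ⟨h1 x, hx.2⟩
  have hnear : ∀ (b : {b : P // F b = j}) x, S.adj (apos x) (u b.1) →
      S.pE (apos x) ∈ S.near u F j := by
    intro b x hbx
    rw [S.mem_near]
    exact ⟨b.1, b.2, S.hadj _ _ hbx⟩
  let SP : Finset {b : P // F b = j} := univ.filter (fun b => ∃ x, S.adj (apos x) (u b.1))
  have hSP : SP.card ≤ S.n * (univ.filter (fun x : {x : X // x ∈ S.X0} =>
      S.pE (apos x) ∈ S.near u F j)).card := by
    have hsub : SP ⊆ (univ.filter (fun x : {x : X // x ∈ S.X0} =>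
      S.pE (apos x) ∈ S.near u F j)).biUnion
        (fun x => univ.filter (fun b : {b : P // F b = j} => S.adj (apos x) (u b.1))) := by
      intro b hb
      rw [mem_filter] at hb
      obtain ⟨x, hx⟩ := hb.2
      rw [mem_biUnion]
      refine ⟨x, ?_, ?_⟩
      · rw [mem_filter]
        exact ⟨mem_univ _, hnear b x hx⟩
      · rw [mem_filter]
        exact ⟨mem_univ _, hx⟩
    refine le_trans (card_le_card hsub) (le_trans (card_biUnion_le_card_mul _ _ S.n ?_)
      (le_of_eq (mul_comm _ _)))
    intro x _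
    refine le_trans ?_ (S.dE (apos x))
    rw [← card_map ⟨fun b : {b : P // F b = j} => u b.1,
      fun b b' hbb => Subtype.ext (hu hbb)⟩]
    apply card_le_card
    intro b hb
    rw [mem_map] at hb
    obtain ⟨b', hb', rfl⟩ := hb
    rw [mem_filter] at hb' ⊢
    exact ⟨mem_univ _, hb'.2⟩
  have hcardY : ∀ Z : Finset Y, (∀ y ∈ Z, S.cl y = some j) →
      (univ.filter (fun y : {y : Y // S.cl y = some j} => y.1 ∈ Z)).card = Z.card := by
    intro Z hZ'
    rw [← card_map (Function.Embedding.subtype _)]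
    congr 1
    ext y
    rw [mem_map]
    constructor
    · rintro ⟨y', hy', rfl⟩
      exact (mem_filter.1 hy').2
    · intro hy
      exact ⟨⟨y, hZ' y hy⟩, by rw [mem_filter]; exact ⟨mem_univ _, hy⟩, rfl⟩
  obtain ⟨e, he⟩ := exists_equiv_special (A := {b : P // F b = j})
    (B := {y : Y // S.cl y = some j})
    (by
      rw [Fintype.card_subtype, hF1 j, Fintype.card_subtype]
      rfl) SP
    (fun b => univ.filter (fun y => ∀ x, S.adj (apos x) (u b.1) → ¬ S.h x.1 y.1))
    (by
      intro b hb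
      rw [mem_filter] at hb
      obtain ⟨x, hx⟩ := hb.2
      have huniq : ∀ x', S.adj (apos x') (u b.1) → x' = x := by
        intro x' hx'
        by_contra hne
        exact h2 x' x hne (Or.inr ⟨_, hx', hx⟩)
      have hlist : (univ.filter (fun y : {y : Y // S.cl y = some j} =>
          ∀ x, S.adj (apos x) (u b.1) → ¬ S.h x.1 y.1)).card + S.H x.1 j = S.q j := by
        have e1 : (univ.filter (fun y : {y : Y // S.cl y = some j} =>
          ∀ x, S.adj (apos x) (u b.1) → ¬ S.h x.1 y.1)) =
          univ.filter (fun y : {y : Y // S.cl y = some j} => y.1 ∈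
            (univ.filter (fun y => S.cl y = some j ∧ ¬ S.h x.1 y))) := by
          ext y
          simp only [mem_filter, mem_univ, true_and]
          constructor
          · intro h
            exact ⟨y.2, h x hx⟩
          · intro h x' hx'
            rw [huniq x' hx']
            exact h.2
        rw [e1, hcardY _ (fun y hy => (mem_filter.1 hy).2.1), q, H, ← filter_filter,
          ← filter_filter, add_comm]
        exact card_filter_add_card_filter_not (s := univ.filter (fun y => S.cl y = some j))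
          (fun y => S.h x.1 y)
      have h8 := h3 x j (hnear b x hx)
      have h9 : 12 * SP.card ≤ 10 * S.q j := by
        have h10 : S.T * (12 * SP.card) ≤ S.T * (10 * S.q j) := by
          calc S.T * (12 * SP.card) ≤ S.T * (12 * (S.n * (univ.filter
                (fun x : {x : X // x ∈ S.X0} => S.pE (apos x) ∈ S.near u F j)).card)) :=
                Nat.mul_le_mul_left _ (Nat.mul_le_mul_left _ hSP)
            _ = 12 * S.n * (((univ.filter
                (fun x : {x : X // x ∈ S.X0} => S.pE (apos x) ∈ S.near u F j)).card) * S.T) := by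
                ring
            _ ≤ 12 * S.n * (10 * S.D * S.q j) := Nat.mul_le_mul_left _ hZ
            _ = (12 * S.n * S.D) * (10 * S.q j) := by ring
            _ ≤ S.T * (10 * S.q j) := Nat.mul_le_mul_right _ S.c3
        exact Nat.le_of_mul_le_mul_left h10 S.Tpos
      omega)
  refine ⟨e, ?_⟩
  intro b x hbx
  have hbS : b ∈ SP := by
    rw [mem_filter]
    exact ⟨mem_univ _, x, hbx⟩
  have h5 := he b hbS
  rw [mem_filter] at h5
  exact h5.2 x hbx

/-- The placement of the odd side. -/
theorem exists_odd : ∃ (bpos : {y : Y // S.cl y = none} → O)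
    (F : {b : O // ∀ y, bpos y ≠ b} → J) (apos : {x : X // x ∈ S.X0} → E) (g : Y ≃ O),
    (∀ y y', y ≠ y' → ¬ Conf (fun b a => S.adj a b) (bpos y) (bpos y')) ∧
    (∀ w, (univ.filter (fun j => ∃ b, S.pO b.1 = w ∧ F b = j)).card ≤ 2) ∧
    (∀ j, ∑ w ∈ S.near (fun b : {b : O // ∀ y, bpos y ≠ b} => b.1) F j, S.m w ≤
      10 * S.D * S.q j) ∧
    (∀ x x', x ≠ x' → ¬ Conf S.adj (apos x) (apos x')) ∧
    (∀ x y, S.adj (apos x) (g y) → ¬ S.h x.1 y) ∧
    (∀ y : {y : Y // S.cl y = none}, g y.1 = bpos y) ∧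
    (∀ y j, S.cl y = some j → ∃ b : {b : O // ∀ y, bpos y ≠ b}, b.1 = g y ∧ F b = j) := by
  obtain ⟨bpos, hb1, hb2⟩ := S.exists_P0
  have hbi : Function.Injective bpos := by
    intro y y' hyy
    by_contra hne
    exact hb2 y y' hne (Or.inl hyy)
  obtain ⟨F, hF1, hF2, hF3⟩ := S.exists_F bpos hbi
  obtain ⟨apos, ha1, ha2, ha3⟩ := S.exists_apos
    (fun b : {b : O // ∀ y, bpos y ≠ b} => b.1) F hF3
  choose e he using S.exists_class_equiv (fun b : {b : O // ∀ y, bpos y ≠ b} => b.1)
    Subtype.val_injective F hF1 hF3 apos ha1 ha2 ha3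
  let φ : {b : O // ∀ y, bpos y ≠ b} → Y := fun b => (e (F b) ⟨b, rfl⟩).1
  have hφcl : ∀ b, S.cl (φ b) = some (F b) := fun b => (e (F b) ⟨b, rfl⟩).2
  have hφval : ∀ j b (hb : F b = j), (e j ⟨b, hb⟩).1 = φ b := by
    intro j b hb
    subst hb
    rfl
  have hφi : Function.Injective φ := by
    intro b b' hbb
    have h1 : F b = F b' := by
      have h2 := hφcl b
      rw [hbb, hφcl b'] at h2
      exact (Option.some.inj h2).symm
    have h3 : (e (F b') ⟨b, h1⟩).1 = (e (F b') ⟨b', rfl⟩).1 := by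
      rw [hφval, hφval]
      exact hbb
    have h4 := (e (F b')).injective (Subtype.ext h3)
    exact congrArg Subtype.val h4
  obtain ⟨g, hg1, hg2⟩ := glue S.cl (by rw [S.hY, S.hO]) bpos hbi F φ hφcl hφi
  have hg3 : ∀ y j, S.cl y = some j →
      ∃ b : {b : O // ∀ y, bpos y ≠ b}, b.1 = g y ∧ F b = j ∧ φ b = y := by
    intro y j hy
    have hne : ∀ y', bpos y' ≠ g y := by
      intro y' h'
      rw [← hg1 y'] at h'
      have h2 := g.injective h'
      have h3 := y'.2
      rw [h2, hy] at h3
      exact Option.some_ne_none _ h3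
    have h5 := hg2 ⟨g y, hne⟩
    have h6 : φ ⟨g y, hne⟩ = y := g.injective h5
    refine ⟨⟨g y, hne⟩, rfl, ?_, h6⟩
    have h7 := hφcl ⟨g y, hne⟩
    rw [h6, hy] at h7
    exact (Option.some.inj h7).symm
  refine ⟨bpos, F, apos, g, hb2, hF2, hF3, ha2, ?_, hg1, ?_⟩
  · intro x y hxy
    rcases hcy : S.cl y with _ | j
    · exfalso
      have h1 := hg1 ⟨y, hcy⟩
      have h2 := S.hTF (apos x) (ha1 x) (bpos ⟨y, hcy⟩) (hb1 _)
      rw [← h1] at h2
      exact h2 hxy
    · obtain ⟨b, hb, hbF, hby⟩ := hg3 y j hcy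
      have h1 := he (F b) ⟨b, rfl⟩ x (by rw [hb]; exact hxy)
      have h2 : (e (F b) ⟨b, rfl⟩).1 = y := hby
      rw [h2] at h1
      exact h1
  · intro y j hy
    obtain ⟨b, hb, hbF, hby⟩ := hg3 y j hy
    exact ⟨b, hb, hbF⟩

end Setting

end Pool.Agent.VC
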