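import Pool.Agent.VCube.CoreD

/-!
# The core: placing the even side
-/

namespace Pool.Agent.VC

open Finset Classical

namespace Setting

variable {E O X Y W J : Type} [Fintype E] [Fintype O] [Fintype X] [Fintype Y]
    [Fintype W] [Fintype J] (S : Setting E O X Y W J)

theorem exists_Z (j : J) : ∃ Z : Finset X, Z.card ≤ S.dl ∧
    ∀ y, S.cl y = some j → (univ.filter (fun x => S.h x y ∧ x ∉ Z)).card ≤ S.ep := by
  by_cases h : ∃ y, S.cl y = some j
  · obtain ⟨y0, hy0⟩ := h
    refine ⟨univ.filter (fun x => S.h x y0), S.hdY y0, fun y hy => ?_⟩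
    refine le_trans (card_le_card ?_) (S.hcl j y y0 hy hy0)
    intro x hx
    simp only [mem_filter, mem_univ, true_and] at hx ⊢
    tauto
  · exact ⟨∅, by simp, fun y hy => absurd ⟨y, hy⟩ h⟩

/-- Row bound. -/
theorem row_bound (bpos : {y : Y // S.cl y = none} → O) (F : {b : O // ∀ y, bpos y ≠ b} → J)
    (g : Y ≃ O)
    (hb : ∀ y y', y ≠ y' → ¬ Conf (fun b a => S.adj a b) (bpos y) (bpos y'))
    (hF2 : ∀ w, (univ.filter (fun j => ∃ b, S.pO b.1 = w ∧ F b = j)).card ≤ 2)
    (hg1 : ∀ y : {y : Y // S.cl y = none}, g y.1 = bpos y)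
    (hg2 : ∀ y j, S.cl y = some j → ∃ b : {b : O // ∀ y, bpos y ≠ b}, b.1 = g y ∧ F b = j)
    (a : E) : (univ.filter (fun x => ∃ y, S.adj a (g y) ∧ S.h x y)).card ≤
      (2 * S.D + 1) * S.dl + S.n * S.ep := by
  choose Z hZ1 hZ2 using S.exists_Z
  let N0 : Finset Y := univ.filter (fun y => S.adj a (g y) ∧ S.cl y = none)
  let N1 : Finset Y := univ.filter (fun y => S.adj a (g y))
  let Vis : Finset J := univ.filter (fun j => ∃ y, S.adj a (g y) ∧ S.cl y = some j)
  have hN0 : N0.card ≤ 1 := by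
    rw [card_le_one]
    intro y hy y' hy'
    rw [mem_filter] at hy hy'
    by_contra hne
    have h1 := hb ⟨y, hy.2.2⟩ ⟨y', hy'.2.2⟩ (fun h => hne (congrArg Subtype.val h))
    rw [← hg1, ← hg1] at h1
    exact h1 (Or.inr ⟨a, hy.2.1, hy'.2.1⟩)
  have hN1 : N1.card ≤ S.n := by
    refine le_trans ?_ (S.dE a)
    rw [← card_map g.toEmbedding]
    apply card_le_card
    intro b hb'
    rw [mem_map] at hb'
    obtain ⟨y, hy, rfl⟩ := hb'
    rw [mem_filter] at hy ⊢
    exact ⟨mem_univ _, hy.2⟩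
  have hVis : Vis.card ≤ 2 * S.D := by
    have hsub : Vis ⊆ (S.nb (S.pE a)).biUnion
        (fun w => univ.filter (fun j => ∃ b, S.pO b.1 = w ∧ F b = j)) := by
      intro j hj
      rw [mem_filter] at hj
      obtain ⟨_, y, hy1, hy2⟩ := hj
      obtain ⟨b, hb1, hb2⟩ := hg2 y j hy2
      rw [mem_biUnion]
      refine ⟨S.pO (g y), S.hadj _ _ hy1, ?_⟩
      simp only [mem_filter, mem_univ, true_and]
      exact ⟨b, by rw [hb1], hb2⟩
    calc Vis.card ≤ _ := card_le_card hsub
      _ ≤ (S.nb (S.pE a)).card * 2 := card_biUnion_le_card_mul _ _ 2 (fun w _ => hF2 w)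
      _ ≤ S.D * 2 := Nat.mul_le_mul_right _ (S.nbc _)
      _ = 2 * S.D := mul_comm _ _
  have hsub : univ.filter (fun x => ∃ y, S.adj a (g y) ∧ S.h x y) ⊆
      (N0.biUnion (fun y => univ.filter (fun x => S.h x y)) ∪ Vis.biUnion Z) ∪
      N1.biUnion (fun y => univ.filter (fun x => ∃ j, S.cl y = some j ∧ S.h x y ∧ x ∉ Z j)) := by
    intro x hx
    rw [mem_filter] at hx
    obtain ⟨_, y, hy1, hy2⟩ := hx
    rcases hcy : S.cl y with _ | j
    · refine mem_union_left _ (mem_union_left _ ?_)
      rw [mem_biUnion]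
      exact ⟨y, by rw [mem_filter]; exact ⟨mem_univ _, hy1, hcy⟩,
        by rw [mem_filter]; exact ⟨mem_univ _, hy2⟩⟩
    · by_cases hxZ : x ∈ Z j
      · refine mem_union_left _ (mem_union_right _ ?_)
        rw [mem_biUnion]
        exact ⟨j, by rw [mem_filter]; exact ⟨mem_univ _, y, hy1, hcy⟩, hxZ⟩
      · refine mem_union_right _ ?_
        rw [mem_biUnion]
        exact ⟨y, by rw [mem_filter]; exact ⟨mem_univ _, hy1⟩,
          by rw [mem_filter]; exact ⟨mem_univ _, j, hcy, hy2, hxZ⟩⟩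
  have hc1 : (N0.biUnion (fun y => univ.filter (fun x => S.h x y))).card ≤ 1 * S.dl :=
    le_trans (card_biUnion_le_card_mul _ _ S.dl (fun y _ => S.hdY y))
      (Nat.mul_le_mul_right _ hN0)
  have hc2 : (Vis.biUnion Z).card ≤ (2 * S.D) * S.dl :=
    le_trans (card_biUnion_le_card_mul _ _ S.dl (fun j _ => hZ1 j))
      (Nat.mul_le_mul_right _ hVis)
  have hc3 : (N1.biUnion (fun y => univ.filter
      (fun x => ∃ j, S.cl y = some j ∧ S.h x y ∧ x ∉ Z j))).card ≤ S.n * S.ep := by
    refine le_trans (card_biUnion_le_card_mul _ _ S.ep (fun y _ => ?_))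
      (Nat.mul_le_mul_right _ hN1)
    rcases hcy : S.cl y with _ | j
    · have : univ.filter (fun x => ∃ j, (none : Option J) = some j ∧ S.h x y ∧ x ∉ Z j) = ∅ := by
        apply filter_eq_empty_iff.2
        rintro x _ ⟨j, hj, _⟩
        exact Option.some_ne_none _ hj.symm
      rw [this]
      simp
    · refine le_trans (card_le_card ?_) (hZ2 j y hcy)
      intro x hx
      rw [mem_filter] at hx ⊢
      obtain ⟨_, j', hj', h1, h2⟩ := hx
      have : j = j' := Option.some.inj hj'
      subst this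
      exact ⟨mem_univ _, h1, h2⟩
  calc _ ≤ _ := card_le_card hsub
    _ ≤ _ := card_union_le _ _
    _ ≤ _ := Nat.add_le_add_right (card_union_le _ _) _
    _ ≤ (1 * S.dl + (2 * S.D) * S.dl) + S.n * S.ep :=
        Nat.add_le_add (Nat.add_le_add hc1 hc2) hc3
    _ = (2 * S.D + 1) * S.dl + S.n * S.ep := by ring

/-- Column bound. -/
theorem col_bound (bpos : {y : Y // S.cl y = none} → O) (F : {b : O // ∀ y, bpos y ≠ b} → J)
    (g : Y ≃ O)
    (hF3 : ∀ j, ∑ w ∈ S.near (fun b : {b : O // ∀ y, bpos y ≠ b} => b.1) F j, S.m w ≤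
      10 * S.D * S.q j)
    (hg2 : ∀ y j, S.cl y = some j → ∃ b : {b : O // ∀ y, bpos y ≠ b}, b.1 = g y ∧ F b = j)
    (x : X) : (univ.filter (fun a => ∃ y, S.adj a (g y) ∧ S.h x y)).card ≤
      S.rho * S.n + 20 * S.D * S.dl + S.nu x * S.n := by
  let C1 : Finset Y := univ.filter (fun y => S.cl y = none)
  let C2 : Finset J := univ.filter (fun j => S.q j ≤ 2 * S.H x j)
  let C3 : Finset Y := (univ.filter (fun j => 2 * S.H x j < S.q j)).biUnion
    (fun j => univ.filter (fun y => S.cl y = some j ∧ S.h x y))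
  have hdeg : ∀ y ∈ (univ : Finset Y), (univ.filter (fun a => S.adj a (g y))).card ≤ S.n :=
    fun y _ => S.dO (g y)
  have hC3 : C3.card ≤ S.nu x := by
    refine le_trans card_biUnion_le ?_
    exact le_of_eq rfl
  have hsub : univ.filter (fun a => ∃ y, S.adj a (g y) ∧ S.h x y) ⊆
      (C1.biUnion (fun y => univ.filter (fun a => S.adj a (g y))) ∪
      C2.biUnion (fun j => univ.filter (fun a => S.pE a ∈
        S.near (fun b : {b : O // ∀ y, bpos y ≠ b} => b.1) F j))) ∪
      C3.biUnion (fun y => univ.filter (fun a => S.adj a (g y))) := by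
    intro a ha
    rw [mem_filter] at ha
    obtain ⟨_, y, hy1, hy2⟩ := ha
    rcases hcy : S.cl y with _ | j
    · refine mem_union_left _ (mem_union_left _ ?_)
      rw [mem_biUnion]
      exact ⟨y, by rw [mem_filter]; exact ⟨mem_univ _, hcy⟩,
        by rw [mem_filter]; exact ⟨mem_univ _, hy1⟩⟩
    · by_cases hj : S.q j ≤ 2 * S.H x j
      · refine mem_union_left _ (mem_union_right _ ?_)
        rw [mem_biUnion]
        refine ⟨j, by rw [mem_filter]; exact ⟨mem_univ _, hj⟩, ?_⟩
        obtain ⟨b, hb1, hb2⟩ := hg2 y j hcy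
        rw [mem_filter, S.mem_near]
        refine ⟨mem_univ _, b, hb2, ?_⟩
        rw [hb1]
        exact S.hadj _ _ hy1
      · refine mem_union_right _ ?_
        rw [mem_biUnion]
        refine ⟨y, ?_, by rw [mem_filter]; exact ⟨mem_univ _, hy1⟩⟩
        rw [mem_biUnion]
        exact ⟨j, by rw [mem_filter]; exact ⟨mem_univ _, not_le.1 hj⟩,
          by rw [mem_filter]; exact ⟨mem_univ _, hcy, hy2⟩⟩
  have hc1 : (C1.biUnion (fun y => univ.filter (fun a => S.adj a (g y)))).card ≤
      S.rho * S.n :=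
    le_trans (card_biUnion_le_card_mul _ _ S.n (fun y _ => hdeg y (mem_univ _)))
      (Nat.mul_le_mul_right _ S.hrho)
  have hc3 : (C3.biUnion (fun y => univ.filter (fun a => S.adj a (g y)))).card ≤
      S.nu x * S.n :=
    le_trans (card_biUnion_le_card_mul _ _ S.n (fun y _ => hdeg y (mem_univ _)))
      (Nat.mul_le_mul_right _ hC3)
  have hc2 : (C2.biUnion (fun j => univ.filter (fun a => S.pE a ∈
        S.near (fun b : {b : O // ∀ y, bpos y ≠ b} => b.1) F j))).card ≤
      20 * S.D * S.dl := by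
    calc _ ≤ ∑ j ∈ C2, (univ.filter (fun a => S.pE a ∈
        S.near (fun b : {b : O // ∀ y, bpos y ≠ b} => b.1) F j)).card := card_biUnion_le
      _ ≤ ∑ j ∈ C2, 20 * S.D * S.H x j := by
          apply sum_le_sum
          intro j hj
          rw [mem_filter] at hj
          calc _ = ∑ w ∈ S.near (fun b : {b : O // ∀ y, bpos y ≠ b} => b.1) F j, S.m w :=
                S.card_E_over _
            _ ≤ 10 * S.D * S.q j := hF3 j
            _ ≤ 10 * S.D * (2 * S.H x j) := Nat.mul_le_mul_left _ hj.2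
            _ = 20 * S.D * S.H x j := by ring
      _ ≤ ∑ j, 20 * S.D * S.H x j := sum_le_sum_of_subset (subset_univ _)
      _ = 20 * S.D * ∑ j, S.H x j := (mul_sum _ _ _).symm
      _ ≤ 20 * S.D * S.dl := Nat.mul_le_mul_left _ (S.sum_H x)
  calc _ ≤ _ := card_le_card hsub
    _ ≤ _ := card_union_le _ _
    _ ≤ _ := Nat.add_le_add_right (card_union_le _ _) _
    _ ≤ S.rho * S.n + 20 * S.D * S.dl + S.nu x * S.n :=
        Nat.add_le_add (Nat.add_le_add hc1 hc2) hc3

/-- No conflict between the position `a` and the vertex `x`. -/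
def Good (g : Y ≃ O) (a : E) (x : X) : Prop := ∀ y, S.adj a (g y) → ¬ S.h x y

theorem not_good (g : Y ≃ O) (a : E) (x : X) :
    ¬ S.Good g a x ↔ ∃ y, S.adj a (g y) ∧ S.h x y := by
  unfold Good
  push Not
  rfl

/-- The placement exists. -/
theorem exists_placement : ∃ (f : X → E) (g : Y → O), Function.Injective f ∧
    Function.Injective g ∧ ∀ x y, S.adj (f x) (g y) → ¬ S.h x y := by
  obtain ⟨bpos, F, apos, g, hb, hF2, hF3, ha, hag, hg1, hg2⟩ := S.exists_odd
  have hainj : Function.Injective apos := by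
    intro x x' hxx
    by_contra hne
    exact ha x x' hne (Or.inl hxx)
  have hcA : Fintype.card {a : E // ∀ x, apos x ≠ a} + S.X0.card = S.N := by
    have h1 : Fintype.card {a : E // ∀ x, apos x ≠ a} =
        (univ.filter (fun a => ∀ x, apos x ≠ a)).card := by rw [Fintype.card_subtype]
    have h2 : (univ.filter (fun a => ¬ ∀ x, apos x ≠ a)) = univ.image apos := by
      ext b
      simp only [mem_filter, mem_univ, true_and, mem_image, not_forall, not_not]
    have h3 := Finset.card_filter_add_card_filter_not (s := (univ : Finset E))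
      (fun a => ∀ x, apos x ≠ a)
    rw [h2, card_image_of_injective _ hainj, Finset.card_univ, Finset.card_univ, S.hE,
      Fintype.card_coe] at h3
    rw [h1, h3]
  have hcB : Fintype.card {x : X // x ∉ S.X0} + S.X0.card = S.N := by
    have h1 := Fintype.card_subtype_compl (fun x => x ∈ S.X0)
    have h2 : S.X0.card ≤ Fintype.card X := card_le_univ _
    rw [Fintype.card_coe, S.hX] at h1
    rw [S.hX] at h2
    omega
  have hX0 := S.card_X0
  obtain ⟨e, he⟩ := hall_half (A := {a : E // ∀ x, apos x ≠ a}) (B := {x : X // x ∉ S.X0})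
    (fun a x => S.Good g a.1 x.1) (by omega)
    (by
      intro a
      have h1 : (univ.filter (fun x : {x : X // x ∉ S.X0} =>
          ¬ S.Good g a.1 x.1)).card ≤
          (univ.filter (fun x => ∃ y, S.adj a.1 (g y) ∧ S.h x y)).card := by
        rw [← card_map (Function.Embedding.subtype _)]
        apply card_le_card
        intro x hx
        rw [mem_map] at hx
        obtain ⟨x', hx', rfl⟩ := hx
        simp only [mem_filter, mem_univ, true_and] at hx' ⊢
        exact (S.not_good g _ _).1 hx'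
      have h2 := S.row_bound bpos F g hb hF2 hg1 hg2 a.1
      have h3 := S.c4
      omega)
    (by
      intro x
      have h1 : (univ.filter (fun a : {a : E // ∀ x, apos x ≠ a} =>
          ¬ S.Good g a.1 x.1)).card ≤
          (univ.filter (fun a => ∃ y, S.adj a (g y) ∧ S.h x.1 y)).card := by
        rw [← card_map (Function.Embedding.subtype _)]
        apply card_le_card
        intro a ha'
        rw [mem_map] at ha'
        obtain ⟨a', ha', rfl⟩ := ha'
        simp only [mem_filter, mem_univ, true_and] at ha' ⊢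
        exact (S.not_good g _ _).1 ha'
      have h2 := S.col_bound bpos F g hF3 hg2 x.1
      have h3 := S.c5
      have h4 : S.n ^ 2 * S.nu x.1 ≤ S.N := by
        by_contra hlt
        exact x.2 ((S.mem_X0 x.1).2 (not_le.1 hlt))
      have h5 : 16 * (S.nu x.1 * S.n) ≤ S.N := by
        calc 16 * (S.nu x.1 * S.n) ≤ S.n * (S.nu x.1 * S.n) := Nat.mul_le_mul_right _ S.hn
          _ = S.n ^ 2 * S.nu x.1 := by ring
          _ ≤ S.N := h4
      have h6 : 16 * S.n * S.rho = 16 * (S.rho * S.n) := by ring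
      have h7 : 320 * S.D * S.dl = 16 * (20 * S.D * S.dl) := by ring
      have h8 : 16 * S.ep * S.n ^ 2 = 8 * (2 * S.ep * S.n ^ 2) := by ring
      rw [h6, h7, h8] at h3
      omega)
  let f : X → E := fun x => if h : x ∈ S.X0 then apos ⟨x, h⟩ else (e.symm ⟨x, h⟩).1
  have hf1 : ∀ x (h : x ∈ S.X0), f x = apos ⟨x, h⟩ := fun x h => dif_pos h
  have hf2 : ∀ x (h : x ∉ S.X0), f x = (e.symm ⟨x, h⟩).1 := fun x h => dif_neg h
  refine ⟨f, g, ?_, g.injective, ?_⟩
  · intro x x' hxx
    by_cases h : x ∈ S.X0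
    · by_cases h' : x' ∈ S.X0
      · rw [hf1 x h, hf1 x' h'] at hxx
        exact congrArg Subtype.val (hainj hxx)
      · exfalso
        rw [hf1 x h, hf2 x' h'] at hxx
        exact (e.symm ⟨x', h'⟩).2 _ hxx
    · by_cases h' : x' ∈ S.X0
      · exfalso
        rw [hf2 x h, hf1 x' h'] at hxx
        exact (e.symm ⟨x, h⟩).2 _ hxx.symm
      · rw [hf2 x h, hf2 x' h'] at hxx
        exact congrArg Subtype.val (e.symm.injective (Subtype.ext hxx))
  · intro x y hxy
    by_cases h : x ∈ S.X0
    · rw [hf1 x h] at hxy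
      exact hag ⟨x, h⟩ y hxy
    · rw [hf2 x h] at hxy
      have h1 := he (e.symm ⟨x, h⟩)
      rw [Equiv.apply_symm_apply] at h1
      exact h1 y hxy

end Setting

end Pool.Agent.VC
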