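import Pool.Agent.VCube.Main
import Pool.Agent.H80.Cube.Main

/-!
# The hypercube in dense graphs of bounded VC-dimension
-/

namespace Pool.Agent.VCube

open Finset Classical Pool.Agent.VC

/-- The transport of a placement. -/
theorem transport {n N : ℕ} (hn : 1 ≤ n) (hN : N = 2 ^ (n - 1)) (h2 : N + N = 2 ^ n)
    (G : SimpleGraph (Fin (2 ^ n)))
    (f : Fin N → EPos n) (g : Fin N → OPos n) (hf : Function.Injective f)
    (hg : Function.Injective g)
    (hfg : ∀ x y, Adj (f x) (g y) → G.Adj (iX h2 x) (iY h2 y)) :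
    ∃ F : (Fin n → Bool) ↪ Fin (2 ^ n),
      ∀ x y : Fin n → Bool, hammingDist x y = 1 → G.Adj (F x) (F y) := by
  have hfb : Function.Bijective f := by
    rw [Fintype.bijective_iff_injective_and_card]
    exact ⟨hf, by rw [Fintype.card_fin, hN, card_EPos n hn]⟩
  have hgb : Function.Bijective g := by
    rw [Fintype.bijective_iff_injective_and_card]
    exact ⟨hg, by rw [Fintype.card_fin, hN, card_OPos n hn]⟩
  obtain ⟨f', hf'⟩ := hfb.surjective.hasRightInverse
  obtain ⟨g', hg'⟩ := hgb.surjective.hasRightInverse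
  let F : (Fin n → Bool) → Fin (2 ^ n) := fun z =>
    if hz : Even (ones z) then iX h2 (f' ⟨z, hz⟩) else iY h2 (g' ⟨z, hz⟩)
  have hF1 : ∀ z (hz : Even (ones z)), F z = iX h2 (f' ⟨z, hz⟩) := fun z hz => dif_pos hz
  have hF2 : ∀ z (hz : ¬ Even (ones z)), F z = iY h2 (g' ⟨z, hz⟩) := fun z hz => dif_neg hz
  have hFi : Function.Injective F := by
    intro z z' hzz
    by_cases hz : Even (ones z)
    · by_cases hz' : Even (ones z')
      · rw [hF1 z hz, hF1 z' hz'] at hzz
        have h3 := iX_inj h2 hzz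
        have h4 := congrArg f h3
        rw [hf', hf'] at h4
        exact congrArg Subtype.val h4
      · rw [hF1 z hz, hF2 z' hz'] at hzz
        exact absurd hzz (iX_ne_iY h2 _ _)
    · by_cases hz' : Even (ones z')
      · rw [hF2 z hz, hF1 z' hz'] at hzz
        exact absurd hzz.symm (iX_ne_iY h2 _ _)
      · rw [hF2 z hz, hF2 z' hz'] at hzz
        have h3 := iY_inj h2 hzz
        have h4 := congrArg g h3
        rw [hg', hg'] at h4
        exact congrArg Subtype.val h4
  have key : ∀ z z' : Fin n → Bool, hammingDist z z' = 1 → Even (ones z) →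
      G.Adj (F z) (F z') := by
    intro z z' hd hz
    have hz' : ¬ Even (ones z') := (parity_of_dist_one z z' hd).1 hz
    rw [hF1 z hz, hF2 z' hz']
    apply hfg
    rw [hf', hg']
    exact hd
  refine ⟨⟨F, hFi⟩, fun z z' hd => ?_⟩
  change G.Adj (F z) (F z')
  by_cases hz : Even (ones z)
  · exact key z z' hd hz
  · have hz' : Even (ones z') := by
      by_contra h3
      exact hz ((parity_of_dist_one z z' hd).2 h3)
    exact (key z' z (by rw [hammingDist_comm]; exact hd) hz').symm

/-- The case `n > (1024 d)^2`. -/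
theorem main_large (n d : ℕ) (hd : 1 ≤ d) (hn : (1024 * d) ^ 2 < n)
    (G : SimpleGraph (Fin (2 ^ n)))
    (hvc : ∀ S : Finset (Fin (2 ^ n)),
      (∀ T : Finset (Fin (2 ^ n)), T ⊆ S → ∃ v, ∀ u ∈ S, (G.Adj v u ↔ u ∈ T)) → S.card ≤ d)
    (hdeg : ∀ v, (univ.filter (fun u => ¬ G.Adj v u)).card * (1000000 * d) ≤ 2 ^ (n - 1)) :
    ∃ F : (Fin n → Bool) ↪ Fin (2 ^ n),
      ∀ x y : Fin n → Bool, hammingDist x y = 1 → G.Adj (F x) (F y) := by
  have hd2 : d ≤ d ^ 2 := by nlinarith
  have hn1 : 1048576 ≤ n := by nlinarith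
  obtain ⟨N, hN⟩ : ∃ N, N = 2 ^ (n - 1) := ⟨_, rfl⟩
  have h2 : N + N = 2 ^ n := by
    rw [hN, ← two_mul, ← pow_succ']
    congr 1
    omega
  rw [← hN] at hdeg
  have hpos : 0 < 1000000 * d := by omega
  have hdl : ∀ v, (univ.filter (fun u => ¬ G.Adj v u)).card ≤ N / (1000000 * d) := by
    intro v
    rw [Nat.le_div_iff_mul_le hpos]
    exact hdeg v
  obtain ⟨f, g, hf, hg, hfg⟩ := placement n d hd hn N hN
    (fun x y => ¬ G.Adj (iX h2 x) (iY h2 y)) (N / (1000000 * d)) (Nat.div_mul_le_self _ _)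
    (by
      intro x
      refine le_trans ?_ (hdl (iX h2 x))
      rw [← card_map ⟨iY h2, iY_inj h2⟩]
      apply card_le_card
      intro v hv
      rw [mem_map] at hv
      obtain ⟨y, hy, rfl⟩ := hv
      simp only [mem_filter, mem_univ, true_and] at hy ⊢
      exact hy)
    (by
      intro y
      refine le_trans ?_ (hdl (iY h2 y))
      rw [← card_map ⟨iX h2, iX_inj h2⟩]
      apply card_le_card
      intro v hv
      rw [mem_map] at hv
      obtain ⟨x, hx, rfl⟩ := hv
      simp only [mem_filter, mem_univ, true_and] at hx ⊢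
      intro h
      exact hx h.symm)
    (by
      intro S hS
      have h3 := hvc (S.map ⟨iX h2, iX_inj h2⟩) (by
        intro T' _
        obtain ⟨y, hy⟩ := hS (S.filter (fun x => iX h2 x ∉ T')) (filter_subset _ _)
        refine ⟨iY h2 y, ?_⟩
        intro u hu
        rw [mem_map] at hu
        obtain ⟨x, hx, rfl⟩ := hu
        have h4 := hy x hx
        rw [mem_filter] at h4
        change G.Adj (iY h2 y) (iX h2 x) ↔ iX h2 x ∈ T'
        rw [G.adj_comm]
        constructor
        · intro h5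
          by_contra h6
          exact h4.2 ⟨hx, h6⟩ h5
        · intro h5
          by_contra h6
          exact (h4.1 h6).2 h5)
      rwa [card_map] at h3)
  exact transport (by omega) hN h2 G f g hf hg (fun x y hxy => not_not.1 (hfg x y hxy))

/-- Degrees and VC-dimension. -/
theorem final : ∃ γ : ℝ, 0 < γ ∧ ∀ n d : ℕ, 1 ≤ d → ∀ G : SimpleGraph (Fin (2 ^ n)),
    ∀ [DecidableRel G.Adj],
      (∀ S : Finset (Fin (2 ^ n)),
        (∀ T : Finset (Fin (2 ^ n)), T ⊆ S → ∃ v, ∀ u ∈ S, (G.Adj v u ↔ u ∈ T)) → S.card ≤ d) →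
      (∀ v : Fin (2 ^ n),
        ((G.degree v : ℕ) : ℝ) > (1 - γ / min (d : ℝ) (Real.sqrt n)) * (2 : ℝ) ^ n) →
      ∃ f : (Fin n → Bool) ↪ Fin (2 ^ n),
        ∀ x y : Fin n → Bool, hammingDist x y = 1 → G.Adj (f x) (f y) := by
  obtain ⟨γ₀, hγ₀, hfin⟩ := Pool.Agent.H80.Cube.final
  refine ⟨min (γ₀ / 1024) (1 / 2000000), by positivity, ?_⟩
  intro n d hd G _ hvc hdeg
  set γ : ℝ := min (γ₀ / 1024) (1 / 2000000) with hγ
  have hγpos : 0 < γ := by positivity
  have hγ1 : γ ≤ γ₀ / 1024 := min_le_left _ _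
  have hγ2 : γ ≤ 1 / 2000000 := min_le_right _ _
  have hd0 : (1 : ℝ) ≤ d := by exact_mod_cast hd
  have hpow : (0 : ℝ) < (2 : ℝ) ^ n := by positivity
  by_cases hn : (1024 * d) ^ 2 < n
  · -- the new case
    have hn0 : 1 ≤ n := by omega
    have hdn : (d : ℝ) ≤ Real.sqrt n := by
      apply Real.le_sqrt_of_sq_le
      have h1 : d ^ 2 ≤ n := by nlinarith
      exact_mod_cast h1
    rw [min_eq_left hdn] at hdeg
    refine main_large n d hd hn G hvc ?_
    intro v
    have h1 := hdeg v
    have h2 : (univ.filter (fun u => ¬ G.Adj v u)).card + G.degree v = 2 ^ n := by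
      have h3 := card_filter_add_card_filter_not (s := (univ : Finset (Fin (2 ^ n))))
        (fun u => G.Adj v u)
      rw [Finset.card_univ, Fintype.card_fin] at h3
      have h4 : G.degree v = (univ.filter (fun u => G.Adj v u)).card := by
        rw [← G.card_neighborFinset_eq_degree, G.neighborFinset_eq_filter]
      rw [h4]
      omega
    have h3 : ((univ.filter (fun u => ¬ G.Adj v u)).card : ℝ) + (G.degree v : ℝ) = 2 ^ n := by
      exact_mod_cast h2
    have h4 : ((univ.filter (fun u => ¬ G.Adj v u)).card : ℝ) ≤ γ / d * 2 ^ n := by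
      have h5 : (1 - γ / (d : ℝ)) * (2 : ℝ) ^ n = 2 ^ n - γ / d * 2 ^ n := by ring
      rw [h5] at h1
      linarith
    have h5 : ((univ.filter (fun u => ¬ G.Adj v u)).card : ℝ) * (1000000 * d) ≤
        2 ^ (n - 1) := by
      have h6 : (2 : ℝ) ^ n = 2 * 2 ^ (n - 1) := by
        rw [← pow_succ']
        congr 1
        omega
      calc ((univ.filter (fun u => ¬ G.Adj v u)).card : ℝ) * (1000000 * d) ≤
          (γ / d * 2 ^ n) * (1000000 * d) := by
            apply mul_le_mul_of_nonneg_right h4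
            positivity
        _ = γ * (1000000 * 2 ^ n) := by field_simp
        _ ≤ (1 / 2000000) * (1000000 * 2 ^ n) := by
            apply mul_le_mul_of_nonneg_right hγ2
            positivity
        _ = 2 ^ (n - 1) := by rw [h6]; ring
    have h7 : (univ.filter (fun u => ¬ G.Adj v u)).card * (1000000 * d) ≤ 2 ^ (n - 1) := by
      exact_mod_cast h5
    convert h7
  · -- the case of a large dimension
    apply hfin n G
    intro v
    refine lt_of_le_of_lt ?_ (hdeg v)
    apply mul_le_mul_of_nonneg_right _ hpow.le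
    have h1 : n ≤ (1024 * d) ^ 2 := not_lt.1 hn
    have h2 : Real.sqrt n ≤ 1024 * d := by
      rw [Real.sqrt_le_left (by positivity)]
      exact_mod_cast h1
    rcases Nat.eq_zero_or_pos n with h0 | h0
    · subst h0
      have h4 : min (d : ℝ) (Real.sqrt ((0 : ℕ) : ℝ)) = 0 := by
        rw [Nat.cast_zero, Real.sqrt_zero]
        exact min_eq_right (by linarith)
      rw [h4]
      simp
    · have hs : 0 < Real.sqrt n := Real.sqrt_pos.2 (by exact_mod_cast h0)
      have h3 : Real.sqrt n / 1024 ≤ min (d : ℝ) (Real.sqrt n) := by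
        rw [le_min_iff]
        constructor
        · linarith
        · linarith
      have h4 : γ / min (d : ℝ) (Real.sqrt n) ≤ γ₀ / Real.sqrt n := by
        calc γ / min (d : ℝ) (Real.sqrt n) ≤ (γ₀ / 1024) / (Real.sqrt n / 1024) := by
              apply div_le_div₀ (by positivity) hγ1 (by positivity) h3
          _ = γ₀ / Real.sqrt n := by
              field_simp
      linarith

/-- Bounded VC-dimension. -/
theorem final_vc : ∃ γ : ℝ, 0 < γ ∧ ∀ n d : ℕ, 1 ≤ d → ∀ G : SimpleGraph (Fin (2 ^ n)),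
    ∀ [DecidableRel G.Adj],
      (∀ S : Finset (Fin (2 ^ n)),
        (∀ T : Finset (Fin (2 ^ n)), T ⊆ S → ∃ v, ∀ u ∈ S, (G.Adj v u ↔ u ∈ T)) → S.card ≤ d) →
      (∀ v : Fin (2 ^ n), ((G.degree v : ℕ) : ℝ) > (1 - γ / d) * (2 : ℝ) ^ n) →
      ∃ f : (Fin n → Bool) ↪ Fin (2 ^ n),
        ∀ x y : Fin n → Bool, hammingDist x y = 1 → G.Adj (f x) (f y) := by
  obtain ⟨γ, hγ, hfin⟩ := final
  refine ⟨γ, hγ, ?_⟩
  intro n d hd G _ hvc hdeg
  rcases Nat.eq_zero_or_pos n with h0 | h0
  · subst h0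
    refine ⟨⟨fun _ => ⟨0, by norm_num⟩, fun x y _ => funext (fun i => i.elim0)⟩, ?_⟩
    intro x y hxy
    exfalso
    have h1 : x = y := funext (fun i => i.elim0)
    rw [h1, hammingDist_self] at hxy
    exact absurd hxy (by norm_num)
  · apply hfin n d hd G hvc
    intro v
    refine lt_of_le_of_lt ?_ (hdeg v)
    apply mul_le_mul_of_nonneg_right _ (by positivity)
    have hd0 : (1 : ℝ) ≤ d := by exact_mod_cast hd
    have hs : 0 < Real.sqrt n := Real.sqrt_pos.2 (by exact_mod_cast h0)
    have h1 : 0 < min (d : ℝ) (Real.sqrt n) := lt_min (by linarith) hs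
    have h2 : γ / d ≤ γ / min (d : ℝ) (Real.sqrt n) :=
      div_le_div_of_nonneg_left hγ.le h1 (min_le_left _ _)
    linarith

end Pool.Agent.VCube
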