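import Mathlib

/-!
# Numerical conditions
-/

namespace Pool.Agent.VCube

theorem nums (n d N T ep rho dl D : ℕ) (hd : 1 ≤ d) (hn : (1024 * d) ^ 2 < n)
    (hT1 : n ^ 2 ≤ T) (hT2 : T ≤ 2 * n ^ 2) (hep : ep * n ^ 9 ≤ 2 * N) (hrho : rho * n ^ 9 ≤ N)
    (hdl : dl * (1000000 * d) ≤ N) (hD : D ≤ 321 * d) :
    2 * rho ≤ N ∧ T * (2 * ep * n ^ 2 * (n * n + 1)) + 80 * D * dl ≤ N ∧
    T * (rho * (n * n + 1)) ≤ N ∧ 12 * n * D ≤ T ∧
    2 * ((2 * D + 1) * dl + n * ep) + 2 * ep * n ^ 2 ≤ N ∧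
    16 * n * rho + 320 * D * dl + 16 * ep * n ^ 2 ≤ 7 * N := by
  have hd2 : d ≤ d ^ 2 := by nlinarith
  have hnd : 1048576 * d ≤ n := by nlinarith
  have hn1 : 1048576 ≤ n := by nlinarith
  have hn3 : 1000000 ≤ n ^ 3 := by
    calc 1000000 ≤ n := by omega
      _ = n ^ 1 := (pow_one n).symm
      _ ≤ n ^ 3 := Nat.pow_le_pow_right (by omega) (by norm_num)
  have hn5 : 1000000 ≤ n ^ 5 := by
    calc 1000000 ≤ n := by omega
      _ = n ^ 1 := (pow_one n).symm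
      _ ≤ n ^ 5 := Nat.pow_le_pow_right (by omega) (by norm_num)
  -- the small quantities
  have h1 : 1000000 * (ep * n ^ 6) ≤ 2 * N := by
    calc 1000000 * (ep * n ^ 6) ≤ n ^ 3 * (ep * n ^ 6) := Nat.mul_le_mul_right _ hn3
      _ = ep * n ^ 9 := by ring
      _ ≤ 2 * N := hep
  have h2 : 1000000 * (rho * n ^ 4) ≤ N := by
    calc 1000000 * (rho * n ^ 4) ≤ n ^ 5 * (rho * n ^ 4) := Nat.mul_le_mul_right _ hn5
      _ = rho * n ^ 9 := by ring
      _ ≤ N := hrho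
  have h3 : 1000000 * (d * dl) ≤ N := by
    calc 1000000 * (d * dl) = dl * (1000000 * d) := by ring
      _ ≤ N := hdl
  have hnn : n * n + 1 ≤ 2 * n ^ 2 := by nlinarith
  have e1 : ep ≤ ep * n ^ 6 := Nat.le_mul_of_pos_right _ (by positivity)
  have e2 : ep * n ^ 2 ≤ ep * n ^ 6 :=
    Nat.mul_le_mul_left _ (Nat.pow_le_pow_right (by omega) (by norm_num))
  have e3 : n * ep ≤ ep * n ^ 6 := by
    calc n * ep = ep * n ^ 1 := by ring
      _ ≤ ep * n ^ 6 := Nat.mul_le_mul_left _ (Nat.pow_le_pow_right (by omega) (by norm_num))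
  have r1 : rho ≤ rho * n ^ 4 := Nat.le_mul_of_pos_right _ (by positivity)
  have r2 : n * rho ≤ rho * n ^ 4 := by
    calc n * rho = rho * n ^ 1 := by ring
      _ ≤ rho * n ^ 4 := Nat.mul_le_mul_left _ (Nat.pow_le_pow_right (by omega) (by norm_num))
  have t1 : D * dl ≤ 321 * (d * dl) := by
    calc D * dl ≤ 321 * d * dl := Nat.mul_le_mul_right _ hD
      _ = 321 * (d * dl) := by ring
  have t2 : dl ≤ d * dl := Nat.le_mul_of_pos_left _ (by omega)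
  refine ⟨by omega, ?_, ?_, ?_, ?_, ?_⟩
  · have a1 : T * (2 * ep * n ^ 2 * (n * n + 1)) ≤ 8 * (ep * n ^ 6) := by
      calc T * (2 * ep * n ^ 2 * (n * n + 1)) ≤
          (2 * n ^ 2) * (2 * ep * n ^ 2 * (2 * n ^ 2)) :=
            Nat.mul_le_mul hT2 (Nat.mul_le_mul_left _ hnn)
        _ = 8 * (ep * n ^ 6) := by ring
    have a2 : 80 * D * dl = 80 * (D * dl) := by ring
    rw [a2]
    omega
  · calc T * (rho * (n * n + 1)) ≤ (2 * n ^ 2) * (rho * (2 * n ^ 2)) :=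
            Nat.mul_le_mul hT2 (Nat.mul_le_mul_left _ hnn)
      _ = 4 * (rho * n ^ 4) := by ring
      _ ≤ N := by omega
  · calc 12 * n * D ≤ 12 * n * (321 * d) := Nat.mul_le_mul_left _ hD
      _ = n * (3852 * d) := by ring
      _ ≤ n * n := Nat.mul_le_mul_left _ (by omega)
      _ = n ^ 2 := by ring
      _ ≤ T := hT1
  · have b1 : (2 * D + 1) * dl = 2 * (D * dl) + dl := by ring
    have b2 : 2 * ep * n ^ 2 = 2 * (ep * n ^ 2) := by ring
    rw [b1, b2]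
    omega
  · have b1 : 16 * n * rho = 16 * (n * rho) := by ring
    have b2 : 320 * D * dl = 320 * (D * dl) := by ring
    have b3 : 16 * ep * n ^ 2 = 16 * (ep * n ^ 2) := by ring
    rw [b1, b2, b3]
    omega

/-- The block lengths. -/
theorem params (n d : ℕ) (hd : 1 ≤ d) (hn : (1024 * d) ^ 2 < n) :
    ∃ k t r : ℕ, (160 * d) * k + t + r = n ∧ 1 ≤ r ∧ 2 ≤ t ∧ n ≤ (k + 1) ^ 4 ∧
      n ^ 2 ≤ 2 ^ t ∧ 2 ^ t ≤ 2 * n ^ 2 := by
  have hd2 : d ≤ d ^ 2 := by nlinarith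
  have hn1 : 1048576 ≤ n := by nlinarith
  set t := Nat.clog 2 (n ^ 2) with ht
  have ht1 : n ^ 2 ≤ 2 ^ t := Nat.le_pow_clog (by norm_num) _
  have hn2 : 4 < n ^ 2 := by nlinarith
  have ht2 : 2 ^ t ≤ 2 * n ^ 2 := by
    have h1 : 2 ^ (t - 1) < n ^ 2 := Nat.pow_pred_clog_lt_self (by norm_num) (by omega)
    have h2 : 1 ≤ t := by
      by_contra h
      have : t = 0 := by omega
      rw [this] at ht1
      omega
    have h3 : 2 ^ t = 2 * 2 ^ (t - 1) := by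
      rw [← pow_succ']
      congr 1
      omega
    omega
  have ht3 : 2 ≤ t := by
    by_contra h
    have h1 : t ≤ 1 := by omega
    have h2 : 2 ^ t ≤ 2 ^ 1 := Nat.pow_le_pow_right (by norm_num) h1
    omega
  -- `t` is small
  have ht4 : 2 * t ≤ n := by
    by_contra h
    have h1 : n + 1 ≤ 2 * t := by omega
    have h2 : 2 ^ (n + 1) ≤ 2 ^ (2 * t) := Nat.pow_le_pow_right (by norm_num) h1
    have h3 : 2 ^ (2 * t) = 2 ^ t * 2 ^ t := by rw [two_mul, pow_add]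
    have h4 : 2 ^ t * 2 ^ t ≤ (2 * n ^ 2) * (2 * n ^ 2) := Nat.mul_le_mul ht2 ht2
    set u := n / 8 with hu
    have h5 : u < 2 ^ u := Nat.lt_two_pow_self
    have h6 : n < 8 * 2 ^ u := by omega
    have h7 : n ^ 4 < (8 * 2 ^ u) ^ 4 := Nat.pow_lt_pow_left h6 (by norm_num)
    have h8 : (8 * 2 ^ u) ^ 4 = 2 ^ (12 + 4 * u) := by
      rw [mul_pow, pow_add, ← pow_mul]
      norm_num
      ring
    have h9 : (2 * n ^ 2) * (2 * n ^ 2) = 2 ^ 2 * n ^ 4 := by ring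
    have h10 : 2 ^ 2 * n ^ 4 < 2 ^ 2 * 2 ^ (12 + 4 * u) := by
      rw [← h8]
      exact Nat.mul_lt_mul_of_pos_left h7 (by norm_num)
    have h11 : (2 : ℕ) ^ 2 * 2 ^ (12 + 4 * u) = 2 ^ (14 + 4 * u) := by
      rw [← pow_add]
      congr 1
      omega
    have h12 : (2 : ℕ) ^ (14 + 4 * u) ≤ 2 ^ (n + 1) :=
      Nat.pow_le_pow_right (by norm_num) (by omega)
    omega
  set k := (n - t - 1) / (160 * d) with hk
  have hk1 : (160 * d) * k ≤ n - t - 1 := Nat.mul_div_le _ _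
  have hk2 : n - t - 1 < (160 * d) * (k + 1) := Nat.lt_mul_div_succ _ (by omega)
  refine ⟨k, t, n - t - (160 * d) * k, by omega, by omega, ht3, ?_, ht1, ht2⟩
  have h1 : n ≤ 320 * d * (k + 1) := by
    have : 2 * ((160 * d) * (k + 1)) = 320 * d * (k + 1) := by ring
    omega
  have h2 : n * n ≤ (320 * d * (k + 1)) * (320 * d * (k + 1)) := Nat.mul_le_mul h1 h1
  have h3 : (320 * d * (k + 1)) * (320 * d * (k + 1)) ≤ (1024 * d) ^ 2 * (k + 1) ^ 2 := by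
    have : (320 * d * (k + 1)) * (320 * d * (k + 1)) = (320 * d) ^ 2 * (k + 1) ^ 2 := by ring
    rw [this]
    apply Nat.mul_le_mul_right
    apply Nat.pow_le_pow_left
    omega
  have h4 : (1024 * d) ^ 2 * (k + 1) ^ 2 ≤ n * (k + 1) ^ 2 := Nat.mul_le_mul_right _ hn.le
  have h5 : n * n ≤ n * (k + 1) ^ 2 := le_trans h2 (le_trans h3 h4)
  have h6 : n ≤ (k + 1) ^ 2 := Nat.le_of_mul_le_mul_left h5 (by omega)
  calc n ≤ (k + 1) ^ 2 := h6
    _ ≤ (k + 1) ^ 4 := Nat.pow_le_pow_right (Nat.succ_pos k) (by norm_num)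

end Pool.Agent.VCube
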