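import Pool.Agent.VCube.CoreE
import Pool.Agent.VCube.Nums
import Pool.Agent.VC.Geo
import Pool.Agent.VC.Cover

/-!
# The hypercube in dense graphs of bounded VC-dimension: `n > (1024 d)^2`
-/

namespace Pool.Agent.VCube

open Finset Classical Pool.Agent.VC

/-- The two halves of the vertices. -/
def iX {n N : ℕ} (h : N + N = 2 ^ n) (i : Fin N) : Fin (2 ^ n) := ⟨i.1, by omega⟩

def iY {n N : ℕ} (h : N + N = 2 ^ n) (i : Fin N) : Fin (2 ^ n) := ⟨N + i.1, by omega⟩

theorem iX_inj {n N : ℕ} (h : N + N = 2 ^ n) : Function.Injective (iX (n := n) h) := by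
  intro i j hij
  have := congrArg Fin.val hij
  exact Fin.ext this

theorem iY_inj {n N : ℕ} (h : N + N = 2 ^ n) : Function.Injective (iY (n := n) h) := by
  intro i j hij
  have h1 : N + i.1 = N + j.1 := congrArg Fin.val hij
  exact Fin.ext (by omega)

theorem iX_ne_iY {n N : ℕ} (h : N + N = 2 ^ n) (i j : Fin N) : iX h i ≠ iY h j := by
  intro hij
  have h1 : i.1 = N + j.1 := congrArg Fin.val hij
  omega

/-- Bounded placement. -/
theorem placement (n d : ℕ) (hd : 1 ≤ d) (hn : (1024 * d) ^ 2 < n) (N : ℕ) (hN : N = 2 ^ (n - 1))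
    (h : Fin N → Fin N → Prop) (dl : ℕ) (hdl : dl * (1000000 * d) ≤ N)
    (hdX : ∀ x, (univ.filter (fun y => h x y)).card ≤ dl)
    (hdY : ∀ y, (univ.filter (fun x => h x y)).card ≤ dl)
    (hvc : ∀ S : Finset (Fin N), (∀ T : Finset (Fin N), T ⊆ S →
      ∃ y, ∀ x ∈ S, (h x y ↔ x ∈ T)) → S.card ≤ d) :
    ∃ (f : Fin N → EPos n) (g : Fin N → OPos n), Function.Injective f ∧ Function.Injective g ∧
      ∀ x y, Adj (f x) (g y) → ¬ h x y := by
  have hd2 : d ≤ d ^ 2 := by nlinarith
  have hn1 : 1048576 ≤ n := by nlinarith
  have hNpos : 0 < N := by rw [hN]; positivity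
  obtain ⟨k, t, r, hktr, hr, ht, hk, hT1, hT2⟩ := params n d hd hn
  obtain ⟨pE, pO, nb, m, TE, FO, g1, g2, g3, g4, g5, g6, g7, g8, g9⟩ :=
    exists_geo n (160 * d) k t r (20 * d) hktr hr ht hk (by ring)
  obtain ⟨M, cl, hM, hcl⟩ := exists_cover h n d (by omega) (by rw [Fintype.card_fin]; exact hNpos)
    (by
      rw [Fintype.card_fin, hN]
      exact Nat.pow_le_pow_right (by norm_num) (by omega)) hvc
  rw [Fintype.card_fin] at hcl
  have hn9 : 0 < n ^ 9 := by positivity
  have hn20 : 0 < n ^ (20 * d) := by positivity
  set s := N / n ^ (20 * d) with hs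
  set ep := 2 * N / n ^ 9 with hep
  set rho := N / n ^ 9 with hrho
  obtain ⟨c0, c1, c2, c3, c4, c5⟩ := nums n d N (2 ^ t) ep rho dl (2 * (160 * d) + 1) hd hn
    hT1 hT2 (Nat.div_mul_le_self _ _) (Nat.div_mul_le_self _ _) hdl (by omega)
  -- the classes
  let J := {i : Fin M // s ≤ (univ.filter (fun y => cl y = i)).card}
  let cl' : Fin N → Option J := fun y =>
    if hy : s ≤ (univ.filter (fun y' => cl y' = cl y)).card then some ⟨cl y, hy⟩ else none
  have hcl'1 : ∀ y (j : J), cl' y = some j ↔ cl y = j.1 := by
    intro y j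
    constructor
    · intro hy
      by_cases h1 : s ≤ (univ.filter (fun y' => cl y' = cl y)).card
      · have h2 : cl' y = some ⟨cl y, h1⟩ := dif_pos h1
        rw [h2] at hy
        exact congrArg Subtype.val (Option.some.inj hy)
      · have h2 : cl' y = none := dif_neg h1
        rw [h2] at hy
        exact absurd hy.symm (Option.some_ne_none _)
    · intro hy
      have h1 : s ≤ (univ.filter (fun y' => cl y' = cl y)).card := by
        rw [hy]
        exact j.2
      have h2 : cl' y = some ⟨cl y, h1⟩ := dif_pos h1
      rw [h2]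
      exact congrArg some (Subtype.ext hy)
  have hcl'2 : ∀ y, cl' y = none → (univ.filter (fun y' => cl y' = cl y)).card ≤ s := by
    intro y hy
    by_cases h1 : s ≤ (univ.filter (fun y' => cl y' = cl y)).card
    · have h2 : cl' y = some ⟨cl y, h1⟩ := dif_pos h1
      rw [h2] at hy
      exact absurd hy (Option.some_ne_none _)
    · omega
  have hrho' : (univ.filter (fun y => cl' y = none)).card ≤ rho := by
    have h1 : (univ.filter (fun y => cl' y = none)).card ≤ M * s := by
      have hsub : univ.filter (fun y => cl' y = none) ⊆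
          (univ.filter (fun i : Fin M => (univ.filter (fun y => cl y = i)).card ≤ s)).biUnion
            (fun i => univ.filter (fun y => cl y = i)) := by
        intro y hy
        rw [mem_filter] at hy
        rw [mem_biUnion]
        refine ⟨cl y, ?_, by rw [mem_filter]; exact ⟨mem_univ _, rfl⟩⟩
        rw [mem_filter]
        exact ⟨mem_univ _, hcl'2 y hy.2⟩
      refine le_trans (card_le_card hsub) (le_trans (card_biUnion_le_card_mul _ _ s ?_) ?_)
      · intro i hi
        rw [mem_filter] at hi
        exact hi.2
      · apply Nat.mul_le_mul_right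
        refine le_trans (card_le_univ _) ?_
        rw [Fintype.card_fin]
    refine le_trans h1 ?_
    rw [hrho, Nat.le_div_iff_mul_le hn9]
    calc M * s * n ^ 9 ≤ n ^ (11 * d) * s * n ^ 9 :=
          Nat.mul_le_mul_right _ (Nat.mul_le_mul_right _ hM)
      _ = s * n ^ (11 * d + 9) := by rw [pow_add]; ring
      _ ≤ s * n ^ (20 * d) :=
          Nat.mul_le_mul_left _ (Nat.pow_le_pow_right (by omega) (by omega))
      _ ≤ N := Nat.div_mul_le_self _ _
  let S : Setting (EPos n) (OPos n) (Fin N) (Fin N) (Fin (160 * d) → Fin (k + 1)) J :=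
    { adj := Adj
      n := n
      D := 2 * (160 * d) + 1
      T := 2 ^ t
      N := N
      s := s
      dl := dl
      ep := ep
      rho := rho
      hE := by rw [hN]; exact card_EPos n (by omega)
      hO := by rw [hN]; exact card_OPos n (by omega)
      hX := Fintype.card_fin N
      hY := Fintype.card_fin N
      dE := fun a => card_adj_even a
      dO := fun b => card_adj_odd b
      pE := pE
      pO := pO
      nb := nb
      nbs := g1
      nbc := g2
      hadj := g3
      m := m
      mE := fun w => by rw [← g4 w]; congr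
      mO := fun w => by rw [← g5 w]; congr
      ms := fun w => by
        rw [hs, Nat.le_div_iff_mul_le hn20, hN]
        exact g9 w
      TE := TE
      FO := FO
      mT := fun w => by rw [← g6 w]; congr
      mF := by rw [hN]; exact g7
      hTF := g8
      h := h
      hdX := hdX
      hdY := hdY
      cl := cl'
      hrho := hrho'
      hs := fun j => by
        refine le_trans j.2 (le_of_eq ?_)
        congr 1
        ext y
        simp only [mem_filter, mem_univ, true_and]
        exact (hcl'1 y j).symm
      hcl := fun j y y' hy hy' => by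
        rw [hep, Nat.le_div_iff_mul_le hn9, mul_comm]
        exact hcl y y' (((hcl'1 y j).1 hy).trans ((hcl'1 y' j).1 hy').symm)
      hn := by omega
      hN := hNpos
      c0 := c0
      c1 := c1
      c2 := c2
      c3 := c3
      c4 := c4
      c5 := c5 }
  exact S.exists_placement

end Pool.Agent.VCube
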